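import Pool.Agent.Q68.RA.Rat

/-! Localisation: good open sets. -/

set_option autoImplicit false
open Complex MeasureTheory Filter Topology Metric Set
open scoped NNReal ENNReal

namespace Pool.Agent.Q68.RA

open Pool.Agent.H761R2.SV (dbar)

/-- at almost every point of a measurable set, derivatives within the set are unique -/
lemma density_unique {s : Set ℂ} (hs : MeasurableSet s) :
    ∀ᵐ x ∂(volume.restrict s), ∀ D : ℂ →L[ℝ] ℂ,
      HasFDerivWithinAt (fun _ : ℂ => (0 : ℂ)) D s x → D = 0 := by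
  classical
  set f' : ℂ → ℂ →L[ℝ] ℂ := fun x =>
    if h : ∃ D : ℂ →L[ℝ] ℂ, D ≠ 0 ∧ HasFDerivWithinAt (fun _ : ℂ => (0 : ℂ)) D s x then h.choose
    else 0 with hf'
  have h1 : ∀ x ∈ s, HasFDerivWithinAt (fun _ : ℂ => (0 : ℂ)) (f' x) s x := by
    intro x _
    by_cases h : ∃ D : ℂ →L[ℝ] ℂ, D ≠ 0 ∧ HasFDerivWithinAt (fun _ : ℂ => (0 : ℂ)) D s x
    · simp only [hf', dif_pos h]
      exact h.choose_spec.2
    · simp only [hf', dif_neg h]
      exact hasFDerivWithinAt_const _ _ _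
  have h2 : ApproximatesLinearOn (fun _ : ℂ => (0 : ℂ)) (0 : ℂ →L[ℝ] ℂ) s 0 := by
    intro x _ y _
    simp
  have h3 := h2.norm_fderiv_sub_le (μ := (volume : Measure ℂ)) hs f' h1
  filter_upwards [h3] with x hx D hD
  by_contra hne
  have h : ∃ D : ℂ →L[ℝ] ℂ, D ≠ 0 ∧ HasFDerivWithinAt (fun _ : ℂ => (0 : ℂ)) D s x := ⟨D, hne, hD⟩
  have h4 : f' x = h.choose := by simp only [hf', dif_pos h]
  have h5 : f' x = 0 := by
    have : ‖f' x - 0‖₊ ≤ 0 := hx
    simpa using this
  exact h.choose_spec.1 (h4 ▸ h5)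

/-- cutoff function around `A` -/
noncomputable def cut (A : Set ℂ) (t : ℝ≥0) (w : ℂ) : ℂ :=
  ((max 0 (min 1 (2 - t * infDist w A)) : ℝ) : ℂ)

section Cut
variable {A : Set ℂ} {t : ℝ≥0}

lemma cut_norm (w : ℂ) : ‖cut A t w‖ ≤ 1 := by
  unfold cut
  rw [norm_real, Real.norm_of_nonneg (le_max_left _ _)]
  exact max_le zero_le_one (min_le_left _ _)

lemma cut_norm' (w : ℂ) : ‖1 - cut A t w‖ ≤ 1 := by
  unfold cut
  rw [← ofReal_one, ← ofReal_sub, norm_real, Real.norm_eq_abs, abs_le]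
  have h1 : (0 : ℝ) ≤ max 0 (min 1 (2 - t * infDist w A)) := le_max_left _ _
  have h2 : max 0 (min 1 (2 - t * infDist w A)) ≤ 1 := max_le zero_le_one (min_le_left _ _)
  constructor <;> linarith

lemma cut_lip : LipschitzWith t (cut A t) := by
  have h1 : LipschitzWith t (fun w : ℂ => 2 - (t : ℝ) * infDist w A) := by
    apply LipschitzWith.of_dist_le_mul
    intro x y
    have h := (lipschitz_infDist_pt A).dist_le_mul x y
    rw [Real.dist_eq] at h ⊢
    rw [show 2 - (t : ℝ) * infDist x A - (2 - t * infDist y A) =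
      -(t * (infDist x A - infDist y A)) by ring, abs_neg, abs_mul,
      abs_of_nonneg (NNReal.coe_nonneg t)]
    refine mul_le_mul_of_nonneg_left ?_ t.2
    simpa using h
  have h2 := (h1.const_min 1).const_max 0
  apply LipschitzWith.of_dist_le_mul
  intro x y
  unfold cut
  rw [dist_eq_norm, ← ofReal_sub, norm_real, ← dist_eq_norm]
  exact h2.dist_le_mul x y

lemma cut_one {w : ℂ} (h : t * infDist w A ≤ 1) : cut A t w = 1 := by
  unfold cut
  have h1 : min 1 (2 - (t : ℝ) * infDist w A) = 1 := min_eq_left (by linarith)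
  rw [h1]
  simp

lemma cut_zero {w : ℂ} (h : 2 ≤ t * infDist w A) : cut A t w = 0 := by
  unfold cut
  have h1 : max 0 (min 1 (2 - (t : ℝ) * infDist w A)) = 0 :=
    max_eq_left ((min_le_right _ _).trans (by linarith))
  rw [h1]
  simp

end Cut

lemma lip_mul {φ χ : ℂ → ℂ} {K L b c : ℝ≥0} (hφ : LipschitzWith K φ) (hχ : LipschitzWith L χ)
    (hb : ∀ x, ‖φ x‖ ≤ b) (hc : ∀ x, ‖χ x‖ ≤ c) : LipschitzWith (K * c + b * L) (fun x => φ x * χ x) := by
  apply LipschitzWith.of_dist_le_mul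
  intro x y
  have h1 := hφ.dist_le_mul x y
  have h2 := hχ.dist_le_mul x y
  rw [dist_eq_norm] at h1 h2 ⊢
  rw [show φ x * χ x - φ y * χ y = (φ x - φ y) * χ x + φ y * (χ x - χ y) by ring]
  refine (norm_add_le _ _).trans ?_
  rw [norm_mul, norm_mul]
  have h3 : ‖φ x - φ y‖ * ‖χ x‖ ≤ (K * dist x y) * c :=
    mul_le_mul h1 (hc x) (norm_nonneg _) (by positivity)
  have h4 : ‖φ y‖ * ‖χ x - χ y‖ ≤ b * (L * dist x y) :=
    mul_le_mul (hb y) h2 (norm_nonneg _) b.2
  push_cast
  calc _ ≤ (K * dist x y) * c + b * (L * dist x y) := add_le_add h3 h4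
    _ = _ := by ring

/-- compactly supported Lipschitz functions -/
def LipC (φ : ℂ → ℂ) : Prop := (∃ K, LipschitzWith K φ) ∧ HasCompactSupport φ

lemma LipC.bdd {φ : ℂ → ℂ} (h : LipC φ) : ∃ b : ℝ≥0, ∀ x, ‖φ x‖ ≤ b := by
  obtain ⟨⟨K, hK⟩, hc⟩ := h
  obtain ⟨C, hC⟩ := hc.exists_bound_of_continuous hK.continuous
  exact ⟨C.toNNReal, fun x => (hC x).trans (Real.le_coe_toNNReal C)⟩

lemma LipC.ball {φ : ℂ → ℂ} (h : LipC φ) : ∃ R : ℝ, tsupport φ ⊆ ball (0 : ℂ) R := by
  obtain ⟨R, hR⟩ := (h.2.isCompact.isBounded).subset_ball (0 : ℂ)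
  exact ⟨R, hR⟩

lemma LipC.mul {φ χ : ℂ → ℂ} (h : LipC φ) {L c : ℝ≥0} (hχ : LipschitzWith L χ)
    (hc : ∀ x, ‖χ x‖ ≤ c) : LipC (fun x => φ x * χ x) := by
  obtain ⟨b, hb⟩ := h.bdd
  obtain ⟨⟨K, hK⟩, hcs⟩ := h
  exact ⟨⟨_, lip_mul hK hχ hb hc⟩, hcs.mul_right⟩

section Good

variable (X : Set ℂ) (f : ℂ → ℂ)

/-- localisation operator -/
noncomputable def T (φ : ℂ → ℂ) (z : ℂ) : ℂ :=
  φ z * f z - (Real.pi : ℂ)⁻¹ * pot (fun w => f w * dbar φ w) z

/-- good sets -/
def Good (U : Set ℂ) : Prop := ∀ φ : ℂ → ℂ, LipC φ → tsupport φ ⊆ U → RX X (T f φ)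

variable {X f} {B : ℝ} (hfm : Measurable f) (hfB : ∀ w, ‖f w‖ ≤ B)

include hfm hfB

lemma fd_int {φ : ℂ → ℂ} (h : LipC φ) (z : ℂ) :
    Integrable (fun w => (f w * dbar φ w) * (z - w)⁻¹) := by
  obtain ⟨R, hR⟩ := h.ball
  obtain ⟨⟨K, hK⟩, hcs⟩ := h
  have hB : 0 ≤ B := (norm_nonneg _).trans (hfB 0)
  refine pot_int (g := fun w => f w * dbar φ w) (M := B * K) (R := R) (hfm.mul (dbar_meas φ))
    (fun w => ?_) (fun w hw => ?_) z
  · rw [norm_mul]
    exact mul_le_mul (hfB w) (dbar_bd hK w) (norm_nonneg _) hB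
  · rw [dbar_zero (fun h => hw (hR h)), mul_zero]

lemma T_add {φ ψ : ℂ → ℂ} (hφ : LipC φ) (hψ : LipC ψ) (z : ℂ) :
    T f (fun w => φ w + ψ w) z = T f φ z + T f ψ z := by
  have h1 : pot (fun w => f w * dbar (fun w => φ w + ψ w) w) z =
      pot (fun w => f w * dbar φ w) z + pot (fun w => f w * dbar ψ w) z := by
    rw [← pot_add (fd_int hfm hfB hφ z) (fd_int hfm hfB hψ z)]
    apply pot_congr
    obtain ⟨⟨K, hK⟩, _⟩ := hφ
    obtain ⟨⟨L, hL⟩, _⟩ := hψ
    filter_upwards [hK.ae_differentiableAt, hL.ae_differentiableAt] with w h1 h2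
    rw [dbar_add_at h1 h2]
    ring
  unfold T
  rw [h1]
  ring

lemma good_union {U V : Set ℂ} (hUo : IsOpen U) (hVo : IsOpen V) (hU : Good X f U)
    (hV : Good X f V) :
    Good X f (U ∪ V) := by
  intro φ hφ hsupp
  set A := tsupport φ \ V with hA
  by_cases hAe : A = ∅
  · refine hV φ hφ ?_
    rwa [hA, sdiff_eq_empty] at hAe
  have hAne : A.Nonempty := nonempty_iff_ne_empty.2 hAe
  have hAc : IsCompact A := hφ.2.isCompact.diff hVo
  have hAU : A ⊆ U := by
    intro w hw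
    rcases hsupp hw.1 with h | h
    · exact h
    · exact absurd h hw.2
  obtain ⟨δ, hδ, hδU⟩ := hAc.exists_cthickening_subset_open hUo hAU
  set t : ℝ≥0 := (2 / δ).toNNReal with ht
  have ht' : (t : ℝ) = 2 / δ := Real.coe_toNNReal _ (by positivity)
  have hcut1 : LipC (fun w => φ w * cut A t w) :=
    hφ.mul (c := 1) cut_lip (fun x => by simpa using cut_norm x)
  have hcut2 : LipC (fun w => φ w * (1 - cut A t w)) := by
    refine hφ.mul (L := t) (c := 1) ?_ (fun x => by simpa using cut_norm' x)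
    apply LipschitzWith.of_dist_le_mul
    intro x y
    rw [dist_sub_left]
    exact cut_lip.dist_le_mul x y
  have hid : Continuous (fun w : ℂ => infDist w A) := continuous_infDist_pt A
  have h1 : RX X (T f (fun w => φ w * cut A t w)) := by
    refine hU _ hcut1 ?_
    have hcl : IsClosed {w | infDist w A ≤ δ} := isClosed_le hid continuous_const
    have : tsupport (fun w => φ w * cut A t w) ⊆ {w | infDist w A ≤ δ} := by
      refine closure_minimal (fun w hw => ?_) hcl
      by_contra h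
      simp only [mem_ofPred_eq, not_le] at h
      apply hw
      have : cut A t w = 0 := by
        apply cut_zero
        rw [ht', div_mul_eq_mul_div, le_div_iff₀ hδ]
        nlinarith
      simp [this]
    refine this.trans (fun w hw => hδU ?_)
    rw [mem_cthickening_iff, ← ENNReal.toReal_le_toReal (infEDist_ne_top hAne) (by simp),
      ENNReal.toReal_ofReal hδ.le]
    exact hw
  have h2 : RX X (T f (fun w => φ w * (1 - cut A t w))) := by
    refine hV _ hcut2 ?_
    have hcl : IsClosed {w | δ / 2 ≤ infDist w A} := isClosed_le continuous_const hid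
    have h3 : tsupport (fun w => φ w * (1 - cut A t w)) ⊆ {w | δ / 2 ≤ infDist w A} := by
      refine closure_minimal (fun w hw => ?_) hcl
      by_contra h
      simp only [mem_ofPred_eq, not_le] at h
      apply hw
      have : cut A t w = 1 := by
        apply cut_one
        rw [ht', div_mul_eq_mul_div, div_le_iff₀ hδ]
        linarith
      simp [this]
    have h4 : tsupport (fun w => φ w * (1 - cut A t w)) ⊆ tsupport φ := tsupport_mul_subset_left
    intro w hw
    by_contra hwV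
    have hwA : w ∈ A := ⟨h4 hw, hwV⟩
    have h5 : δ / 2 ≤ infDist w A := h3 hw
    rw [infDist_zero_of_mem hwA] at h5
    linarith
  refine (h1.add h2).congr (fun z _ => ?_)
  rw [← T_add hfm hfB hcut1 hcut2]
  congr 1
  funext w
  ring

omit hfm hfB in
lemma good_empty (X : Set ℂ) (f : ℂ → ℂ) : Good X f ∅ := by
  intro φ _ hs
  have h0 : ∀ w, w ∉ tsupport φ := fun w hw => hs hw
  refine (RX.zero X).congr fun z _ => ?_
  unfold T
  rw [image_eq_zero_of_notMem_tsupport (h0 z)]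
  have : (fun w => f w * dbar φ w) = fun _ => 0 := by
    funext w
    rw [dbar_zero (h0 w), mul_zero]
  rw [this]
  simp [pot]

/-- unions of good open sets -/
theorem good_sUnion {𝒰 : Set (Set ℂ)} (h : ∀ U ∈ 𝒰, IsOpen U ∧ Good X f U) :
    Good X f (⋃₀ 𝒰) := by
  classical
  intro φ hφ hsupp
  obtain ⟨t, ht, htc⟩ := hφ.2.isCompact.elim_finite_subcover_image (b := 𝒰) (c := id)
    (fun U hU => (h U hU).1) (by simpa [sUnion_eq_biUnion] using hsupp)
  obtain ⟨htf, htc⟩ := htc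
  have key : ∀ s : Set (Set ℂ), s.Finite → s ⊆ 𝒰 → IsOpen (⋃ U ∈ s, U) ∧ Good X f (⋃ U ∈ s, U) := by
    intro s hs
    induction s, hs using Set.Finite.induction_on with
    | empty =>
      intro _
      simp only [mem_empty_iff_false, iUnion_of_empty, iUnion_empty, isOpen_empty, true_and]
      exact good_empty X f
    | insert _ _ ih =>
      intro hsub
      rw [insert_subset_iff] at hsub
      obtain ⟨h1, h2⟩ := ih hsub.2
      rw [biUnion_insert]
      exact ⟨(h _ hsub.1).1.union h1, good_union hfm hfB (h _ hsub.1).1 h1 (h _ hsub.1).2 h2⟩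
  exact (key t htf ht).2 φ hφ htc

end Good

end Pool.Agent.Q68.RA
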