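import Pool.Agent.H761R2.SV.Pomp

/-! Cauchy-Pompeiu formula for compactly supported Lipschitz functions. -/

set_option autoImplicit false
open Complex MeasureTheory Filter Topology Metric Set
open scoped ContDiff NNReal Convolution

namespace Pool.Agent.Q68.RA

open Pool.Agent.H761R2.SV (dbar)

/-- the mollification -/
noncomputable def mol (φ : ContDiffBump (0 : ℂ)) (u : ℂ → ℝ) : ℂ → ℝ :=
  φ.normed volume ⋆[ContinuousLinearMap.lsmul ℝ ℝ, volume] u

variable {u : ℂ → ℝ} {K : ℝ≥0}

lemma mol_apply (φ : ContDiffBump (0 : ℂ)) (u : ℂ → ℝ) (w : ℂ) :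
    mol φ u w = ∫ t, φ.normed volume t * u (w - t) := by
  simp [mol, convolution_def]

lemma mol_contDiff (hu : LipschitzWith K u) (φ : ContDiffBump (0 : ℂ)) :
    ContDiff ℝ 1 (mol φ u) := by
  apply HasCompactSupport.contDiff_convolution_left
  · exact φ.hasCompactSupport_normed
  · exact φ.contDiff_normed
  · exact hu.continuous.locallyIntegrable

lemma mol_lip (hu : LipschitzWith K u) (φ : ContDiffBump (0 : ℂ)) :
    LipschitzWith K (mol φ u) := by
  have hi : ∀ w, Integrable (fun t => φ.normed volume t * u (w - t)) := by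
    intro w
    apply Continuous.integrable_of_hasCompactSupport
    · have := φ.contDiff_normed (μ := (volume : Measure ℂ)) (n := 0)
      have h1 : Continuous (φ.normed (volume : Measure ℂ)) := this.continuous
      have h2 := hu.continuous
      fun_prop
    · exact φ.hasCompactSupport_normed.mul_right
  apply LipschitzWith.of_dist_le_mul
  intro x y
  rw [mol_apply, mol_apply, dist_eq_norm, ← integral_sub (hi x) (hi y)]
  have h1 : ∀ t, ‖φ.normed volume t * u (x - t) - φ.normed volume t * u (y - t)‖ ≤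
      φ.normed volume t * (K * dist x y) := by
    intro t
    rw [← mul_sub, norm_mul, Real.norm_of_nonneg (φ.nonneg_normed t), ← dist_eq_norm]
    refine mul_le_mul_of_nonneg_left ?_ (φ.nonneg_normed t)
    refine (hu.dist_le_mul _ _).trans (le_of_eq ?_)
    simp
  refine (norm_integral_le_of_norm_le ?_ (Eventually.of_forall h1)).trans (le_of_eq ?_)
  · exact (φ.integrable_normed).mul_const _
  · rw [integral_mul_const, φ.integral_normed, one_mul]

lemma mol_fderiv (hu : LipschitzWith K u) (φ : ContDiffBump (0 : ℂ)) (w v : ℂ) :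
    fderiv ℝ (mol φ u) w v =
      (φ.normed volume ⋆[ContinuousLinearMap.lsmul ℝ ℝ, volume] (fun x => lineDeriv ℝ u x v)) w := by
  have h1 : HasFDerivAt (mol φ u)
      ((fderiv ℝ (φ.normed volume) ⋆[(ContinuousLinearMap.lsmul ℝ ℝ).precompL ℂ, volume] u) w) w :=
    HasCompactSupport.hasFDerivAt_convolution_left _ φ.hasCompactSupport_normed
      φ.contDiff_normed hu.continuous.locallyIntegrable w
  rw [h1.fderiv]
  have hcd : ContDiff ℝ 1 (φ.normed (volume : Measure ℂ)) := φ.contDiff_normed
  have hcs : HasCompactSupport (φ.normed (volume : Measure ℂ)) := φ.hasCompactSupport_normed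
  have h2 : ((fderiv ℝ (φ.normed volume) ⋆[(ContinuousLinearMap.lsmul ℝ ℝ).precompL ℂ, volume] u) w) v
      = ∫ t, fderiv ℝ (φ.normed volume) t v * u (w - t) := by
    rw [convolution_def, ContinuousLinearMap.integral_apply]
    · rfl
    · have hint := (HasCompactSupport.convolutionExists_left (μ := (volume : Measure ℂ))
        ((ContinuousLinearMap.lsmul ℝ ℝ).precompL ℂ : (ℂ →L[ℝ] ℝ) →L[ℝ] ℝ →L[ℝ] (ℂ →L[ℝ] ℝ))
        (hcs.fderiv ℝ) (hcd.continuous_fderiv (by simp))
        (hu.continuous.locallyIntegrable (μ := (volume : Measure ℂ))) w)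
      exact hint
  rw [h2, convolution_def]
  obtain ⟨D, hD⟩ := hcd.lipschitzWith_of_hasCompactSupport hcs (by simp)
  have hlip2 : LipschitzWith K (fun t => u (w - t)) := by
    apply LipschitzWith.of_dist_le_mul
    intro x y
    refine (hu.dist_le_mul _ _).trans (le_of_eq ?_)
    rw [dist_sub_left]
  have h3 := LipschitzWith.integral_lineDeriv_mul_eq (μ := (volume : Measure ℂ)) hlip2 hD hcs (-v)
  rw [neg_neg] at h3
  calc ∫ t, fderiv ℝ (φ.normed volume) t v * u (w - t)
      = ∫ t, lineDeriv ℝ (φ.normed volume) t v * u (w - t) := by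
        congr 1
        funext t
        rw [((hcd.differentiable (by simp)) t).lineDeriv_eq_fderiv]
    _ = ∫ t, lineDeriv ℝ (fun t => u (w - t)) t (-v) * φ.normed volume t := h3.symm
    _ = _ := by
        congr 1
        funext t
        have : lineDeriv ℝ (fun t => u (w - t)) t (-v) = lineDeriv ℝ u (w - t) v := by
          unfold lineDeriv
          have hfun : (fun s : ℝ => u (w - (t + s • (-v)))) = fun s : ℝ => u (w - t + s • v) := by
            funext s
            rw [show w - (t + s • (-v)) = w - t + s • v by rw [smul_neg]; abel]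
          rw [hfun]
        rw [this]
        simp [mul_comm]

/-- a sequence of bumps -/
noncomputable def bmp (n : ℕ) : ContDiffBump (0 : ℂ) :=
  ⟨(1 / 2) * (1 / ((n : ℝ) + 1)), 1 / ((n : ℝ) + 1), by positivity, by
    have : (0 : ℝ) < 1 / ((n : ℝ) + 1) := by positivity
    linarith⟩

lemma bmp_out (n : ℕ) : (bmp n).rOut = 1 / ((n : ℝ) + 1) := rfl

lemma bmp_tendsto : Tendsto (fun n => (bmp n).rOut) atTop (𝓝 0) :=
  tendsto_one_div_add_atTop_nhds_zero_nat

lemma mol_zero {φ : ContDiffBump (0 : ℂ)} {R : ℝ} (hR : ∀ w, R < ‖w‖ → u w = 0)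
    (hφ : φ.rOut ≤ 1) {w : ℂ} (hw : R + 1 < ‖w‖) : mol φ u w = 0 := by
  rw [mol_apply]
  rw [show (fun t => φ.normed volume t * u (w - t)) = fun _ => 0 from ?_]
  · simp
  · funext t
    by_cases ht : t ∈ ball (0 : ℂ) φ.rOut
    · rw [hR _ ?_, mul_zero]
      rw [mem_ball_zero_iff] at ht
      have := norm_sub_norm_le w t
      linarith
    · have : t ∉ Function.support (φ.normed (volume : Measure ℂ)) := by
        rw [φ.support_normed_eq]
        exact ht
      rw [Function.notMem_support.1 this, zero_mul]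

/-- the real dbar -/
noncomputable def db (u : ℂ → ℝ) (w : ℂ) : ℂ :=
  (((fderiv ℝ u w 1 : ℝ) : ℂ) + I * ((fderiv ℝ u w I : ℝ) : ℂ)) / 2

lemma fderiv_bd (hu : LipschitzWith K u) (w : ℂ) : ‖fderiv ℝ u w‖ ≤ K :=
  norm_fderiv_le_of_lipschitz ℝ hu

lemma db_bd (hu : LipschitzWith K u) (w : ℂ) : ‖db u w‖ ≤ K := by
  have h := fderiv_bd hu w
  have h1 : ‖fderiv ℝ u w 1‖ ≤ K := by
    refine ((fderiv ℝ u w).le_opNorm 1).trans ?_
    simpa using h
  have h2 : ‖fderiv ℝ u w I‖ ≤ K := by
    refine ((fderiv ℝ u w).le_opNorm I).trans ?_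
    simpa using h
  unfold db
  rw [norm_div, Complex.norm_ofNat]
  have h3 := norm_add_le (((fderiv ℝ u w 1 : ℝ) : ℂ)) (I * ((fderiv ℝ u w I : ℝ) : ℂ))
  rw [norm_mul, norm_I, one_mul, norm_real, norm_real] at h3
  linarith

lemma db_meas (u : ℂ → ℝ) : Measurable (db u) := by
  have h1 : Measurable (fun w => fderiv ℝ u w 1) := measurable_fderiv_apply_const ℝ u 1
  have h2 : Measurable (fun w => fderiv ℝ u w I) := measurable_fderiv_apply_const ℝ u I
  unfold db
  fun_prop

lemma db_zero {R : ℝ} (hR : ∀ w, R < ‖w‖ → u w = 0) {w : ℂ} (hw : R < ‖w‖) : db u w = 0 := by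
  have h1 : u =ᶠ[𝓝 w] fun _ => 0 := by
    have : {v : ℂ | R < ‖v‖} ∈ 𝓝 w := (isOpen_lt continuous_const continuous_norm).mem_nhds hw
    filter_upwards [this] with v hv
    exact hR v hv
  unfold db
  rw [h1.fderiv_eq]
  simp

/-- **Cauchy-Pompeiu for real Lipschitz functions.** -/
theorem lip_pompeiu_real (hu : LipschitzWith K u) (hc : HasCompactSupport u) (z : ℂ) :
    ∫ w, db u w * (z - w)⁻¹ = Real.pi * u z := by
  obtain ⟨R, hR⟩ := (hc.isCompact.isBounded).subset_closedBall (0 : ℂ)
  have hR' : ∀ w, R < ‖w‖ → u w = 0 := by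
    intro w hw
    by_contra hne
    have := hR (subset_tsupport _ hne)
    rw [mem_closedBall_zero_iff] at this
    linarith
  have hout : ∀ n, (bmp n).rOut ≤ 1 := by
    intro n
    rw [bmp_out, div_le_one (by positivity)]
    have : (0 : ℝ) ≤ n := Nat.cast_nonneg n
    linarith
  -- the formula for the mollifications
  have h1 : ∀ n, ∫ w, db (mol (bmp n) u) w * (z - w)⁻¹ = Real.pi * mol (bmp n) u z := by
    intro n
    set U : ℂ → ℂ := fun w => ((mol (bmp n) u w : ℝ) : ℂ) with hU
    have hm : ContDiff ℝ 1 (mol (bmp n) u) := mol_contDiff hu _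
    have hUd : ContDiff ℝ 1 U := Complex.ofRealCLM.contDiff.comp hm
    have hUc : HasCompactSupport U := by
      apply HasCompactSupport.of_support_subset_isCompact (isCompact_closedBall (0 : ℂ) (R + 1))
      intro w hw
      by_contra hn
      apply hw
      simp only [mem_closedBall, dist_zero_right, not_le] at hn
      simp [hU, mol_zero hR' (hout n) hn]
    rw [← Pool.Agent.H761R2.SV.pompeiu_compact hUd hUc z]
    congr 1
    funext w
    congr 1
    have hd : HasFDerivAt U (Complex.ofRealCLM.comp (fderiv ℝ (mol (bmp n) u) w)) w :=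
      Complex.ofRealCLM.hasFDerivAt.comp w ((hm.differentiable (by simp)) w).hasFDerivAt
    unfold dbar
    rw [hd.fderiv]
    simp [db]
  -- ae convergence of the derivatives
  have h2 : ∀ v : ℂ, ∀ᵐ w, Tendsto (fun n => fderiv ℝ (mol (bmp n) u) w v) atTop
      (𝓝 (fderiv ℝ u w v)) := by
    intro v
    have hmeas : Measurable (fun x => lineDeriv ℝ u x v) :=
      measurable_lineDeriv hu.continuous
    have hbd : ∀ x, ‖lineDeriv ℝ u x v‖ ≤ K * ‖v‖ := fun x => norm_lineDeriv_le_of_lipschitz ℝ hu
    have hli : LocallyIntegrable (fun x => lineDeriv ℝ u x v) (volume : Measure ℂ) := by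
      have hmem := memLp_top_of_bound (μ := (volume : Measure ℂ))
        hmeas.aestronglyMeasurable (K * ‖v‖) (Eventually.of_forall hbd)
      exact hmem.locallyIntegrable le_top
    have h3 := ContDiffBump.ae_convolution_tendsto_right_of_locallyIntegrable (φ := bmp)
      (K := 2) bmp_tendsto (Eventually.of_forall fun n => by
        simp only [bmp]
        have : (0 : ℝ) < 1 / ((n : ℝ) + 1) := by positivity
        linarith) hli
    filter_upwards [h3, hu.ae_differentiableAt] with w hw1 hw2
    rw [← hw2.lineDeriv_eq_fderiv]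
    refine hw1.congr fun n => ?_
    rw [mol_fderiv hu]
  have h4 : Tendsto (fun n => ∫ w, db (mol (bmp n) u) w * (z - w)⁻¹) atTop
      (𝓝 (∫ w, db u w * (z - w)⁻¹)) := by
    have hb1 : Integrable ((ball (0 : ℂ) (R + 2 + ‖z‖)).indicator (fun w : ℂ => ‖w‖⁻¹)) :=
      (integrable_indicator_iff measurableSet_ball).2
        (Pool.Agent.H761R2.SV.integrableOn_norm_inv _)
    have hb2 : Integrable (fun w : ℂ =>
        (K : ℝ) * (ball (0 : ℂ) (R + 2 + ‖z‖)).indicator (fun w : ℂ => ‖w‖⁻¹) (z - w)) :=
      (hb1.comp_sub_left z).const_mul _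
    refine tendsto_integral_of_dominated_convergence _ ?_ hb2 ?_ ?_
    · intro n
      apply Measurable.aestronglyMeasurable
      have := db_meas (mol (bmp n) u)
      fun_prop
    · intro n
      refine Eventually.of_forall fun w => ?_
      rw [norm_mul, norm_inv]
      by_cases hw : R + 1 < ‖w‖
      · rw [db_zero (R := R + 1) (fun v hv => mol_zero hR' (hout n) hv) hw]
        simp only [norm_zero, zero_mul]
        refine mul_nonneg K.2 (indicator_nonneg (fun w _ => by positivity) _)
      · have hmem : z - w ∈ ball (0 : ℂ) (R + 2 + ‖z‖) := by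
          rw [mem_ball_zero_iff]
          have := norm_sub_le z w
          push Not at hw
          linarith
        rw [indicator_of_mem hmem]
        exact mul_le_mul_of_nonneg_right (db_bd (mol_lip hu _) w) (by positivity)
    · filter_upwards [h2 1, h2 I] with w h1w hIw
      have hc1 : Tendsto (fun n => (((fderiv ℝ (mol (bmp n) u) w 1 : ℝ)) : ℂ)) atTop
          (𝓝 ((fderiv ℝ u w 1 : ℝ) : ℂ)) :=
        (Complex.continuous_ofReal.tendsto _).comp h1w
      have hcI : Tendsto (fun n => (((fderiv ℝ (mol (bmp n) u) w I : ℝ)) : ℂ)) atTop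
          (𝓝 ((fderiv ℝ u w I : ℝ) : ℂ)) :=
        (Complex.continuous_ofReal.tendsto _).comp hIw
      exact ((hc1.add (hcI.const_mul I)).div_const 2).mul_const _
  have h5 : Tendsto (fun n => (Real.pi : ℂ) * mol (bmp n) u z) atTop (𝓝 (Real.pi * u z)) := by
    have := ContDiffBump.convolution_tendsto_right_of_continuous (μ := (volume : Measure ℂ))
      (φ := bmp) bmp_tendsto hu.continuous z
    exact ((Complex.continuous_ofReal.tendsto _).comp this).const_mul _
  exact tendsto_nhds_unique (h4.congr h1) h5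

lemma lip_re {u : ℂ → ℂ} (hu : LipschitzWith K u) : LipschitzWith K (fun w => (u w).re) := by
  apply LipschitzWith.of_dist_le_mul
  intro x y
  refine le_trans ?_ (hu.dist_le_mul x y)
  rw [Real.dist_eq, ← Complex.sub_re, dist_eq_norm]
  exact Complex.abs_re_le_norm _

lemma lip_im {u : ℂ → ℂ} (hu : LipschitzWith K u) : LipschitzWith K (fun w => (u w).im) := by
  apply LipschitzWith.of_dist_le_mul
  intro x y
  refine le_trans ?_ (hu.dist_le_mul x y)
  rw [Real.dist_eq, ← Complex.sub_im, dist_eq_norm]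
  exact Complex.abs_im_le_norm _

end Pool.Agent.Q68.RA
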