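import Pool.Agent.Q68.RA.Pomp

/-! Cauchy potentials of bounded densities and uniform rational approximation. -/

set_option autoImplicit false
open Complex MeasureTheory Filter Topology Metric Set
open scoped NNReal ENNReal

namespace Pool.Agent.Q68.RA

open Pool.Agent.H761R2.SV (dbar)

/-! ### complex dbar of Lipschitz functions -/

section Dbar
variable {u v : ℂ → ℂ} {K L : ℝ≥0}

lemma dbar_meas (u : ℂ → ℂ) : Measurable (dbar u) := by
  have h1 : Measurable (fun w => fderiv ℝ u w 1) := measurable_fderiv_apply_const ℝ u 1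
  have h2 : Measurable (fun w => fderiv ℝ u w I) := measurable_fderiv_apply_const ℝ u I
  unfold dbar
  fun_prop

lemma dbar_bd (hu : LipschitzWith K u) (w : ℂ) : ‖dbar u w‖ ≤ K := by
  have h : ‖fderiv ℝ u w‖ ≤ K := norm_fderiv_le_of_lipschitz ℝ hu
  have h1 : ‖fderiv ℝ u w 1‖ ≤ K := by
    refine ((fderiv ℝ u w).le_opNorm 1).trans ?_
    simpa using h
  have h2 : ‖fderiv ℝ u w I‖ ≤ K := by
    refine ((fderiv ℝ u w).le_opNorm I).trans ?_
    simpa using h
  unfold dbar
  rw [norm_div, Complex.norm_ofNat]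
  have h3 := norm_add_le (fderiv ℝ u w 1) (I * fderiv ℝ u w I)
  rw [norm_mul, norm_I, one_mul] at h3
  linarith

lemma dbar_zero {w : ℂ} (h : w ∉ tsupport u) : dbar u w = 0 := by
  have h1 : u =ᶠ[𝓝 w] fun _ => 0 := notMem_tsupport_iff_eventuallyEq.1 h
  unfold dbar
  rw [h1.fderiv_eq]
  simp

lemma dbar_mul_at {w : ℂ} (hu : DifferentiableAt ℝ u w) (hv : DifferentiableAt ℝ v w) :
    dbar (fun w => u w * v w) w = dbar u w * v w + u w * dbar v w := by
  simp only [dbar]
  rw [fderiv_fun_mul hu hv]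
  simp only [add_apply, smul_apply, smul_eq_mul]
  ring

lemma dbar_add_at {w : ℂ} (hu : DifferentiableAt ℝ u w) (hv : DifferentiableAt ℝ v w) :
    dbar (fun w => u w + v w) w = dbar u w + dbar v w := by
  simp only [dbar]
  rw [fderiv_fun_add hu hv]
  simp only [add_apply]
  ring

lemma dbar_eq_db {w : ℂ} (hu : DifferentiableAt ℝ u w) :
    dbar u w = db (fun w => (u w).re) w + I * db (fun w => (u w).im) w := by
  have h1 : HasFDerivAt (fun w => (u w).re) (Complex.reCLM.comp (fderiv ℝ u w)) w :=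
    Complex.reCLM.hasFDerivAt.comp w hu.hasFDerivAt
  have h2 : HasFDerivAt (fun w => (u w).im) (Complex.imCLM.comp (fderiv ℝ u w)) w :=
    Complex.imCLM.hasFDerivAt.comp w hu.hasFDerivAt
  simp only [dbar, db, h1.fderiv, h2.fderiv, ContinuousLinearMap.comp_apply, Complex.reCLM_apply,
    Complex.imCLM_apply]
  generalize fderiv ℝ u w 1 = a
  generalize fderiv ℝ u w I = b
  apply Complex.ext <;> simp <;> ring

theorem lip_pompeiu (hu : LipschitzWith K u) (hc : HasCompactSupport u) (z : ℂ) :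
    ∫ w, dbar u w * (z - w)⁻¹ = Real.pi * u z := by
  have hre := lip_pompeiu_real (lip_re hu) (hc.comp_left (g := Complex.re) rfl) z
  have him := lip_pompeiu_real (lip_im hu) (hc.comp_left (g := Complex.im) rfl) z
  obtain ⟨R, hR⟩ := (hc.isCompact.isBounded).subset_closedBall (0 : ℂ)
  have hR' : ∀ w, R < ‖w‖ → u w = 0 := by
    intro w hw
    by_contra hne
    have := hR (subset_tsupport _ hne)
    rw [mem_closedBall_zero_iff] at this
    linarith
  have hint : ∀ (g : ℂ → ℂ), Measurable g → (∀ w, ‖g w‖ ≤ K) → (∀ w, R < ‖w‖ → g w = 0) →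
      Integrable (fun w => g w * (z - w)⁻¹) := by
    intro g hg hb h0
    have hb1 : Integrable ((ball (0 : ℂ) (R + 1 + ‖z‖)).indicator (fun w : ℂ => ‖w‖⁻¹)) :=
      (integrable_indicator_iff measurableSet_ball).2
        (Pool.Agent.H761R2.SV.integrableOn_norm_inv _)
    have hb2 : Integrable (fun w : ℂ =>
        (K : ℝ) * (ball (0 : ℂ) (R + 1 + ‖z‖)).indicator (fun w : ℂ => ‖w‖⁻¹) (z - w)) :=
      (hb1.comp_sub_left z).const_mul _
    refine hb2.mono' (by fun_prop) (Eventually.of_forall fun w => ?_)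
    rw [norm_mul, norm_inv]
    by_cases hw : R < ‖w‖
    · rw [h0 w hw]
      simp only [norm_zero, zero_mul]
      refine mul_nonneg K.2 (indicator_nonneg (fun w _ => by positivity) _)
    · have hmem : z - w ∈ ball (0 : ℂ) (R + 1 + ‖z‖) := by
        rw [mem_ball_zero_iff]
        have := norm_sub_le z w
        push Not at hw
        linarith
      rw [indicator_of_mem hmem]
      exact mul_le_mul_of_nonneg_right (hb w) (by positivity)
  have hi1 := hint _ (db_meas (fun w => (u w).re)) (db_bd (lip_re hu))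
    (fun w hw => db_zero (R := R) (fun v hv => by simp [hR' v hv]) hw)
  have hi2 := hint _ (db_meas (fun w => (u w).im)) (db_bd (lip_im hu))
    (fun w hw => db_zero (R := R) (fun v hv => by simp [hR' v hv]) hw)
  have hae : (fun w => dbar u w * (z - w)⁻¹) =ᵐ[volume] fun w =>
      db (fun w => (u w).re) w * (z - w)⁻¹ + I * (db (fun w => (u w).im) w * (z - w)⁻¹) := by
    filter_upwards [hu.ae_differentiableAt] with w hw
    rw [dbar_eq_db hw]
    ring
  rw [integral_congr_ae hae, integral_add hi1 (hi2.const_mul I), integral_const_mul, hre, him]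
  apply Complex.ext <;> simp

end Dbar

/-! ### the Cauchy potential -/

/-- the Cauchy potential -/
noncomputable def pot (g : ℂ → ℂ) (z : ℂ) : ℂ := ∫ w, g w * (z - w)⁻¹

lemma int_inv_ball {r : ℝ} (hr : 0 ≤ r) : ∫ w in ball (0 : ℂ) r, ‖w‖⁻¹ = 2 * Real.pi * r := by
  have h1 : ∫ w in ball (0 : ℂ) r, ‖w‖⁻¹ = ∫ w : ℂ, (Iio r).indicator (fun y : ℝ => y⁻¹) ‖w‖ := by
    rw [← integral_indicator measurableSet_ball]
    congr 1
    funext w
    by_cases hw : w ∈ ball (0 : ℂ) r
    · rw [indicator_of_mem hw, indicator_of_mem]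
      rw [mem_ball_zero_iff] at hw
      exact hw
    · rw [indicator_of_notMem hw, indicator_of_notMem]
      rw [mem_ball_zero_iff] at hw
      exact hw
  rw [h1, integral_fun_norm_addHaar (volume : Measure ℂ) (fun y : ℝ => (Iio r).indicator (fun y : ℝ => y⁻¹) y)]
  have h2 : ∫ y in Ioi (0 : ℝ), y ^ (Module.finrank ℝ ℂ - 1) • (Iio r).indicator (fun y : ℝ => y⁻¹) y
      = r := by
    rw [Complex.finrank_real_complex]
    have h3 : ∀ y ∈ Ioi (0 : ℝ), y ^ (2 - 1) • (Iio r).indicator (fun y : ℝ => y⁻¹) y =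
        (Iio r).indicator (fun _ => (1 : ℝ)) y := by
      intro y hy
      by_cases h : y ∈ Iio r
      · rw [indicator_of_mem h, indicator_of_mem h]
        have : y ≠ 0 := (mem_Ioi.1 hy).ne'
        simp [this]
      · rw [indicator_of_notMem h, indicator_of_notMem h, smul_zero]
    rw [setIntegral_congr_fun measurableSet_Ioi h3, integral_indicator measurableSet_Iio,
      Measure.restrict_restrict measurableSet_Iio, Iio_inter_Ioi]
    simp [hr]
  rw [h2, Complex.finrank_real_complex]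
  have h4 : volume.real (ball (0 : ℂ) 1) = Real.pi := by
    rw [Measure.real, Complex.volume_ball]
    simp
  rw [h4]
  simp
  ring

lemma bound_int (z : ℂ) {r M : ℝ} {E : Set ℂ} (hE : MeasurableSet E) (hE' : volume E ≠ ∞) :
    Integrable (fun w => M * ((ball (0 : ℂ) r).indicator (fun w : ℂ => ‖w‖⁻¹) (z - w) +
      E.indicator (fun _ => r⁻¹) w)) := by
  have h1 : Integrable ((ball (0 : ℂ) r).indicator (fun w : ℂ => ‖w‖⁻¹)) :=
      (integrable_indicator_iff measurableSet_ball).2
        (Pool.Agent.H761R2.SV.integrableOn_norm_inv _)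
  refine ((h1.comp_sub_left z).add ?_).const_mul M
  exact (integrable_indicator_iff hE).2 (integrableOn_const hE')

lemma bound_pt {g : ℂ → ℂ} {z : ℂ} {r M : ℝ} (hr : 0 < r) (hM : 0 ≤ M) {E : Set ℂ} {w : ℂ}
    (h1 : ‖g w‖ ≤ M) (h2 : w ∉ E → g w = 0) :
    ‖g w * (z - w)⁻¹‖ ≤ M * ((ball (0 : ℂ) r).indicator (fun w : ℂ => ‖w‖⁻¹) (z - w) +
      E.indicator (fun _ => r⁻¹) w) := by
  rw [norm_mul, norm_inv]
  by_cases hw : w ∈ E
  · rw [indicator_of_mem hw]
    refine mul_le_mul h1 ?_ (by positivity) hM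
    by_cases hb : z - w ∈ ball (0 : ℂ) r
    · rw [indicator_of_mem hb]
      have : (0 : ℝ) < r⁻¹ := by positivity
      linarith
    · rw [indicator_of_notMem hb, zero_add]
      rw [mem_ball_zero_iff, not_lt] at hb
      exact inv_anti₀ hr hb
  · rw [h2 hw, norm_zero, zero_mul]
    refine mul_nonneg hM (add_nonneg (indicator_nonneg (fun w _ => by positivity) _)
      (indicator_nonneg (fun w _ => by positivity) _))

lemma pot_int {g : ℂ → ℂ} (hg : Measurable g) {M : ℝ} (hM : ∀ w, ‖g w‖ ≤ M) {R : ℝ}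
    (hR : ∀ w, w ∉ ball (0 : ℂ) R → g w = 0) (z : ℂ) :
    Integrable (fun w => g w * (z - w)⁻¹) := by
  have hM0 : 0 ≤ M := (norm_nonneg _).trans (hM 0)
  exact (bound_int z measurableSet_ball (measure_ball_lt_top (x := (0 : ℂ)) (r := R)).ne).mono'
    (by fun_prop)
    (Eventually.of_forall fun w => bound_pt (r := 1) one_pos hM0 (hM w) (hR w))

/-- a bounded density that vanishes almost everywhere off `E` -/
lemma pot_bound {g : ℂ → ℂ} {M : ℝ} (hM0 : 0 ≤ M) {E : Set ℂ} (hE : MeasurableSet E)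
    (hE' : volume E ≠ ∞) (h1 : ∀ᵐ w, ‖g w‖ ≤ M) (h2 : ∀ᵐ w, w ∉ E → g w = 0) {r : ℝ} (hr : 0 < r)
    (z : ℂ) : ‖pot g z‖ ≤ M * (2 * Real.pi * r + volume.real E / r) := by
  unfold pot
  have hb : ∀ᵐ w, ‖g w * (z - w)⁻¹‖ ≤ M * ((ball (0 : ℂ) r).indicator (fun w : ℂ => ‖w‖⁻¹) (z - w) +
      E.indicator (fun _ => r⁻¹) w) := by
    filter_upwards [h1, h2] with w hw1 hw2
    exact bound_pt hr hM0 hw1 hw2
  refine (norm_integral_le_of_norm_le (bound_int z hE hE') hb).trans (le_of_eq ?_)
  have hi1 : Integrable ((ball (0 : ℂ) r).indicator (fun w : ℂ => ‖w‖⁻¹)) :=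
      (integrable_indicator_iff measurableSet_ball).2
        (Pool.Agent.H761R2.SV.integrableOn_norm_inv _)
  rw [integral_const_mul, integral_add (hi1.comp_sub_left z)
    ((integrable_indicator_iff hE).2 (integrableOn_const hE')),
    integral_sub_left_eq_self (fun w => (ball (0 : ℂ) r).indicator (fun w : ℂ => ‖w‖⁻¹) w),
    integral_indicator measurableSet_ball, int_inv_ball hr.le, integral_indicator hE,
    setIntegral_const]
  simp [div_eq_mul_inv]

lemma pot_add {g h : ℂ → ℂ} {z : ℂ} (hg : Integrable (fun w => g w * (z - w)⁻¹))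
    (hh : Integrable (fun w => h w * (z - w)⁻¹)) :
    pot (fun w => g w + h w) z = pot g z + pot h z := by
  unfold pot
  rw [← integral_add hg hh]
  congr 1
  funext w
  ring

lemma pot_congr {g h : ℂ → ℂ} (hgh : g =ᵐ[volume] h) (z : ℂ) : pot g z = pot h z := by
  unfold pot
  apply integral_congr_ae
  filter_upwards [hgh] with w hw
  rw [hw]

end Pool.Agent.Q68.RA
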