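import Pool.Agent.Q68.RA.Pot

/-! Uniform rational approximation: potentials of densities that vanish on `X`. -/

set_option autoImplicit false
open Complex MeasureTheory Filter Topology Metric Set
open scoped NNReal ENNReal

namespace Pool.Agent.Q68.RA

/-- `f` is a uniform limit on `X` of rational functions with poles off `X` -/
def RX (X : Set ℂ) (f : ℂ → ℂ) : Prop :=
  ∀ ε : ℝ, 0 < ε → ∃ p q : Polynomial ℂ, (∀ z ∈ X, q.eval z ≠ 0) ∧
    ∀ z ∈ X, ‖f z - p.eval z / q.eval z‖ < ε

variable {X : Set ℂ}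

lemma RX.zero (X : Set ℂ) : RX X (fun _ => 0) := by
  intro ε hε
  refine ⟨0, 1, fun z _ => by simp, fun z _ => by simpa using hε⟩

lemma RX.add {f g : ℂ → ℂ} (hf : RX X f) (hg : RX X g) : RX X (fun z => f z + g z) := by
  intro ε hε
  obtain ⟨p, q, hq, hp⟩ := hf (ε / 2) (by positivity)
  obtain ⟨p', q', hq', hp'⟩ := hg (ε / 2) (by positivity)
  refine ⟨p * q' + p' * q, q * q', fun z hz => ?_, fun z hz => ?_⟩
  · rw [Polynomial.eval_mul]
    exact mul_ne_zero (hq z hz) (hq' z hz)
  · have h1 := hq z hz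
    have h2 := hq' z hz
    have h3 : f z + g z - (p * q' + p' * q).eval z / (q * q').eval z =
        (f z - p.eval z / q.eval z) + (g z - p'.eval z / q'.eval z) := by
      simp only [Polynomial.eval_mul, Polynomial.eval_add]
      field_simp
      ring
    rw [h3]
    refine (norm_add_le _ _).trans_lt ?_
    have := hp z hz
    have := hp' z hz
    linarith

lemma RX.congr {f g : ℂ → ℂ} (hf : RX X f) (h : ∀ z ∈ X, f z = g z) : RX X g := by
  intro ε hε
  obtain ⟨p, q, hq, hp⟩ := hf ε hε
  exact ⟨p, q, hq, fun z hz => by rw [← h z hz]; exact hp z hz⟩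

lemma RX.lim {f : ℂ → ℂ} (h : ∀ ε : ℝ, 0 < ε → ∃ g, RX X g ∧ ∀ z ∈ X, ‖f z - g z‖ ≤ ε) :
    RX X f := by
  intro ε hε
  obtain ⟨g, hg, hg'⟩ := h (ε / 2) (by positivity)
  obtain ⟨p, q, hq, hp⟩ := hg (ε / 2) (by positivity)
  refine ⟨p, q, hq, fun z hz => ?_⟩
  have h3 : f z - p.eval z / q.eval z = (f z - g z) + (g z - p.eval z / q.eval z) := by ring
  rw [h3]
  refine (norm_add_le _ _).trans_lt ?_
  have := hg' z hz
  have := hp z hz
  linarith

lemma RX.pole {w : ℂ} (hw : w ∉ X) (c : ℂ) : RX X (fun z => c * (z - w)⁻¹) := by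
  intro ε hε
  refine ⟨Polynomial.C c, Polynomial.X - Polynomial.C w, fun z hz => ?_, fun z hz => ?_⟩
  · simp only [Polynomial.eval_sub, Polynomial.eval_X, Polynomial.eval_C]
    rw [sub_ne_zero]
    rintro rfl
    exact hw hz
  · simpa [div_eq_mul_inv] using hε

lemma RX.const_mul {f : ℂ → ℂ} (hf : RX X f) (c : ℂ) : RX X (fun z => c * f z) := by
  intro ε hε
  obtain ⟨p, q, hq, hp⟩ := hf (ε / (‖c‖ + 1)) (by positivity)
  refine ⟨Polynomial.C c * p, q, hq, fun z hz => ?_⟩
  have h1 : c * f z - (Polynomial.C c * p).eval z / q.eval z = c * (f z - p.eval z / q.eval z) := by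
    simp only [Polynomial.eval_mul, Polynomial.eval_C]
    ring
  rw [h1, norm_mul]
  have h2 := hp z hz
  have h3 : ‖c‖ * ‖f z - p.eval z / q.eval z‖ ≤ ‖c‖ * (ε / (‖c‖ + 1)) :=
    mul_le_mul_of_nonneg_left h2.le (norm_nonneg _)
  refine h3.trans_lt ?_
  rw [mul_div_assoc', div_lt_iff₀ (by positivity)]
  nlinarith [norm_nonneg c]

/-- Riemann sums. -/
lemma riemann {K : Set ℂ} {R M δ η : ℝ} (hδ : 0 < δ) (hη : 0 < η) (hK : K ⊆ ball (0 : ℂ) R)
    (hKX : ∀ w ∈ K, ∀ z ∈ X, δ ≤ ‖z - w‖) (t : Finset ℂ) :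
    ∀ g : ℂ → ℂ, Measurable g → (∀ w, ‖g w‖ ≤ M) → (∀ w, g w ≠ 0 → w ∈ K) →
      (∀ w, g w ≠ 0 → ∃ c ∈ t, w ∈ ball c η) →
      ∃ h, RX X h ∧ ∀ z ∈ X, ‖pot g z - h z‖ ≤ (∫ w, ‖g w‖) * (2 * η / δ ^ 2) := by
  classical
  have hgint : ∀ g : ℂ → ℂ, Measurable g → (∀ w, ‖g w‖ ≤ M) → (∀ w, g w ≠ 0 → w ∈ K) →
      Integrable g := by
    intro g hg hM h0
    have hi : Integrable ((ball (0 : ℂ) R).indicator (fun _ => M)) :=
      (integrable_indicator_iff measurableSet_ball).2
        (integrableOn_const (measure_ball_lt_top (x := (0 : ℂ)) (r := R)).ne)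
    refine hi.mono' hg.aestronglyMeasurable (Eventually.of_forall fun w => ?_)
    by_cases hw : g w = 0
    · rw [hw, norm_zero]
      exact indicator_nonneg (fun w _ => (norm_nonneg _).trans (hM w)) _
    · rw [indicator_of_mem (hK (h0 w hw))]
      exact hM w
  induction t using Finset.induction_on with
  | empty =>
    intro g hg hM h0 h1
    refine ⟨fun _ => 0, RX.zero X, fun z hz => ?_⟩
    have : g = fun _ => 0 := by
      funext w
      by_contra h
      obtain ⟨c, hc, _⟩ := h1 w h
      simp at hc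
    rw [this]
    simp [pot]
  | insert c t hc ih =>
    intro g hg hM h0 h1
    set g1 : ℂ → ℂ := (ball c η).indicator g with hg1
    set g2 : ℂ → ℂ := (ball c η)ᶜ.indicator g with hg2
    have hm1 : Measurable g1 := hg.indicator measurableSet_ball
    have hm2 : Measurable g2 := hg.indicator measurableSet_ball.compl
    have hb1 : ∀ w, ‖g1 w‖ ≤ M := fun w => (norm_indicator_le_norm_self _ _).trans (hM w)
    have hb2 : ∀ w, ‖g2 w‖ ≤ M := fun w => (norm_indicator_le_norm_self _ _).trans (hM w)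
    have hK1 : ∀ w, g1 w ≠ 0 → w ∈ K := fun w hw => h0 w (by
      by_contra h; apply hw; simp [hg1, indicator, h])
    have hK2 : ∀ w, g2 w ≠ 0 → w ∈ K := fun w hw => h0 w (by
      by_contra h; apply hw; simp [hg2, indicator, h])
    have hK1' : ∀ w, g1 w ≠ 0 → w ∈ ball c η := fun w hw => by
      by_contra h; exact hw (indicator_of_notMem h _)
    have hsum : ∀ w, g w = g1 w + g2 w := by
      intro w
      rw [hg1, hg2]
      exact (congrFun (indicator_self_add_compl (ball c η) g) w).symm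
    have hcov : ∀ w, g2 w ≠ 0 → ∃ c' ∈ t, w ∈ ball c' η := by
      intro w hw
      have hgw : g w ≠ 0 := by
        intro h; apply hw; simp [hg2, indicator, h]
      have hw' : w ∉ ball c η := by
        intro h
        apply hw
        rw [hg2, indicator_of_notMem]
        simpa using h
      obtain ⟨c', hc', h'⟩ := h1 w hgw
      rcases Finset.mem_insert.1 hc' with h | h
      · subst h
        exact absurd h' hw'
      · exact ⟨c', h, h'⟩
    obtain ⟨h2, hh2, hh2'⟩ := ih g2 hm2 hb2 hK2 hcov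
    have hi1 := hgint g1 hm1 hb1 hK1
    have hi2 := hgint g2 hm2 hb2 hK2
    have hint : ∫ w, ‖g w‖ = (∫ w, ‖g1 w‖) + ∫ w, ‖g2 w‖ := by
      rw [← integral_add hi1.norm hi2.norm]
      congr 1
      funext w
      by_cases hw : w ∈ ball c η
      · have : g2 w = 0 := by rw [hg2, indicator_of_notMem]; simpa using hw
        rw [this, norm_zero, add_zero, hg1, indicator_of_mem hw]
      · have : g1 w = 0 := by rw [hg1, indicator_of_notMem hw]
        rw [this, norm_zero, zero_add, hg2, indicator_of_mem]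
        exact hw
    have hpi : ∀ g' : ℂ → ℂ, Measurable g' → (∀ w, ‖g' w‖ ≤ M) → (∀ w, g' w ≠ 0 → w ∈ K) → ∀ z,
        Integrable (fun w => g' w * (z - w)⁻¹) := by
      intro g' hg' hM' h0' z
      refine pot_int hg' hM' (R := R) (fun w hw => ?_) z
      by_contra h
      exact hw (hK (h0' w h))
    have hpot : ∀ z, pot g z = pot g1 z + pot g2 z := by
      intro z
      rw [← pot_add (hpi g1 hm1 hb1 hK1 z) (hpi g2 hm2 hb2 hK2 z)]
      congr 1
      funext w
      exact hsum w
    -- the piece in the ball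
    have hpiece : ∃ h, RX X h ∧ ∀ z ∈ X, ‖pot g1 z - h z‖ ≤ (∫ w, ‖g1 w‖) * (2 * η / δ ^ 2) := by
      by_cases hex : ∃ w0, w0 ∈ K ∧ w0 ∈ ball c η
      · obtain ⟨w0, hw0K, hw0⟩ := hex
        have hw0X : w0 ∉ X := by
          intro h
          have := hKX w0 hw0K w0 h
          rw [sub_self, norm_zero] at this
          linarith
        refine ⟨fun z => (∫ w, g1 w) * (z - w0)⁻¹, RX.pole hw0X _, fun z hz => ?_⟩
        show ‖(∫ w, g1 w * (z - w)⁻¹) - (∫ w, g1 w) * (z - w0)⁻¹‖ ≤ _
        rw [← integral_mul_const, ← integral_sub (hpi g1 hm1 hb1 hK1 z) (hi1.mul_const _),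
          ← integral_mul_const]
        refine norm_integral_le_of_norm_le (hi1.norm.mul_const _) (Eventually.of_forall fun w => ?_)
        rw [← mul_sub, norm_mul]
        by_cases hw : g1 w = 0
        · rw [hw]; simp
        · refine mul_le_mul_of_nonneg_left ?_ (norm_nonneg _)
          have ha : δ ≤ ‖z - w‖ := hKX w (hK1 w hw) z hz
          have hb : δ ≤ ‖z - w0‖ := hKX w0 hw0K z hz
          have ha' : z - w ≠ 0 := by
            intro h; rw [h, norm_zero] at ha; linarith
          have hb' : z - w0 ≠ 0 := by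
            intro h; rw [h, norm_zero] at hb; linarith
          rw [inv_sub_inv ha' hb', norm_div, norm_mul]
          have hnum : ‖z - w0 - (z - w)‖ ≤ 2 * η := by
            have h1 := hK1' w hw
            rw [show z - w0 - (z - w) = w - w0 by ring, ← dist_eq_norm]
            have h2 := dist_triangle_right w w0 c
            rw [mem_ball] at h1 hw0
            linarith
          have hden : δ ^ 2 ≤ ‖z - w‖ * ‖z - w0‖ := by
            rw [sq]
            exact mul_le_mul ha hb hδ.le (hδ.le.trans ha)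
          exact div_le_div₀ (by positivity) hnum (by positivity) hden
      · refine ⟨fun _ => 0, RX.zero X, fun z hz => ?_⟩
        have : g1 = fun _ => 0 := by
          funext w
          by_contra h
          exact hex ⟨w, hK1 w h, hK1' w h⟩
        rw [this]
        simp [pot]
    obtain ⟨h1', hh1, hh1'⟩ := hpiece
    refine ⟨fun z => h1' z + h2 z, hh1.add hh2, fun z hz => ?_⟩
    rw [hpot z, hint, add_mul, add_sub_add_comm]
    exact (norm_add_le _ _).trans (add_le_add (hh1' z hz) (hh2' z hz))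

lemma pot_rx_far {K : Set ℂ} {R M δ : ℝ} (hδ : 0 < δ) (hK : K ⊆ ball (0 : ℂ) R)
    (hKX : ∀ w ∈ K, ∀ z ∈ X, δ ≤ ‖z - w‖) {g : ℂ → ℂ} (hg : Measurable g) (hM : ∀ w, ‖g w‖ ≤ M)
    (h0 : ∀ w, g w ≠ 0 → w ∈ K) : RX X (pot g) := by
  apply RX.lim
  intro ε hε
  set A := ∫ w, ‖g w‖ with hA
  have hA0 : 0 ≤ A := integral_nonneg fun w => norm_nonneg _
  set η := ε * δ ^ 2 / (2 * (A + 1)) with hη
  have hη0 : 0 < η := by positivity
  obtain ⟨t, ht, htc⟩ := Metric.totallyBounded_iff.1
    (isCompact_closedBall (0 : ℂ) R).totallyBounded η hη0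
  obtain ⟨h, hh, hh'⟩ := riemann (X := X) hδ hη0 hK hKX ht.toFinset g hg hM h0 (fun w hw => by
    have h1 := htc (ball_subset_closedBall (hK (h0 w hw)))
    simp only [mem_iUnion] at h1
    obtain ⟨c, hc, hcw⟩ := h1
    exact ⟨c, ht.mem_toFinset.2 hc, hcw⟩)
  refine ⟨h, hh, fun z hz => (hh' z hz).trans ?_⟩
  rw [← hA, hη]
  rw [show A * (2 * (ε * δ ^ 2 / (2 * (A + 1))) / δ ^ 2) = ε * (A / (A + 1)) by
    field_simp]
  have : A / (A + 1) ≤ 1 := by
    rw [div_le_one (by positivity)]
    linarith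
  nlinarith

/-- thin shells around a closed set have small area -/
lemma shell {S : Set ℂ} (hS : IsClosed S) (hne : S.Nonempty) (R c : ℝ) :
    Tendsto (fun n : ℕ => volume (ball (0 : ℂ) R ∩ {w | 0 < infDist w S ∧
      infDist w S ≤ c / ((n : ℝ) + 1)})) atTop (𝓝 0) := by
  set E : ℕ → Set ℂ := fun n => ball (0 : ℂ) R ∩ {w | 0 < infDist w S ∧
      infDist w S ≤ c / ((n : ℝ) + 1)} with hE
  have hmeas : ∀ n, MeasurableSet (E n) := by
    intro n
    have hc : Continuous (fun w : ℂ => infDist w S) := continuous_infDist_pt S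
    refine measurableSet_ball.inter (MeasurableSet.inter ?_ ?_)
    · exact (isOpen_lt continuous_const hc).measurableSet
    · exact (isClosed_le hc continuous_const).measurableSet
  have hanti : ∀ c : ℝ, 0 ≤ c → ∀ n m : ℕ, n ≤ m → c / ((m : ℝ) + 1) ≤ c / ((n : ℝ) + 1) := by
    intro c hc n m hnm
    apply div_le_div_of_nonneg_left hc (by positivity)
    have : (n : ℝ) ≤ m := by exact_mod_cast hnm
    linarith
  by_cases hc : 0 ≤ c
  · have h1 := tendsto_measure_iInter_atTop (μ := (volume : Measure ℂ)) (s := E)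
      (fun n => (hmeas n).nullMeasurableSet) (by
        intro n m hnm w hw
        exact ⟨hw.1, hw.2.1, hw.2.2.trans (hanti c hc n m hnm)⟩)
      ⟨0, ((measure_mono inter_subset_left).trans_lt
        (measure_ball_lt_top (x := (0 : ℂ)) (r := R))).ne⟩
    have h2 : ⋂ n, E n = ∅ := by
      rw [eq_empty_iff_forall_notMem]
      intro w hw
      rw [mem_iInter] at hw
      have h3 := (hw 0).2.1
      have h4 : Tendsto (fun n : ℕ => c / ((n : ℝ) + 1)) atTop (𝓝 0) := by
        have := (tendsto_one_div_add_atTop_nhds_zero_nat (𝕜 := ℝ)).const_mul c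
        rw [mul_zero] at this
        refine this.congr fun n => ?_
        ring
      have h5 : infDist w S ≤ 0 := ge_of_tendsto h4 (Eventually.of_forall fun n => (hw n).2.2)
      linarith
    rw [h2, measure_empty] at h1
    exact h1
  · have : ∀ n, E n = ∅ := by
      intro n
      rw [eq_empty_iff_forall_notMem]
      intro w hw
      have h1 := hw.2.1
      have h2 : infDist w S ≤ c / ((n : ℝ) + 1) := hw.2.2
      have h3 : c / ((n : ℝ) + 1) < 0 := div_neg_of_neg_of_pos (by linarith) (by positivity)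
      linarith
    refine tendsto_const_nhds.congr fun n => ?_
    show 0 = volume (E n)
    rw [this n, measure_empty]

/-- small potentials: bounded densities carried by thin shells -/
lemma pot_small {S : Set ℂ} (hS : IsClosed S) (hne : S.Nonempty) {R M c : ℝ} (hM : 0 ≤ M) {ε : ℝ}
    (hε : 0 < ε) : ∃ N : ℕ, ∀ n, N ≤ n → ∀ g : ℂ → ℂ, (∀ᵐ w, ‖g w‖ ≤ M) →
      (∀ᵐ w, w ∉ (ball (0 : ℂ) R ∩ {w | 0 < infDist w S ∧ infDist w S ≤ c / ((n : ℝ) + 1)}) →
        g w = 0) → ∀ z, ‖pot g z‖ ≤ ε := by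
  set r : ℝ := ε / (2 * (M + 1) * (2 * Real.pi)) with hr
  have hpi := Real.pi_pos
  have hr0 : 0 < r := by positivity
  have h1 := (ENNReal.tendsto_toReal ENNReal.zero_ne_top).comp (shell hS hne R c)
  rw [ENNReal.toReal_zero] at h1
  have h2 : (0 : ℝ) < ε * r / (2 * (M + 1)) := by positivity
  obtain ⟨N, hN⟩ := eventually_atTop.1 (h1.eventually (gt_mem_nhds h2))
  refine ⟨N, fun n hn g hg1 hg2 z => ?_⟩
  have hc : Continuous (fun w : ℂ => infDist w S) := continuous_infDist_pt S
  have hmeas : MeasurableSet (ball (0 : ℂ) R ∩ {w | 0 < infDist w S ∧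
      infDist w S ≤ c / ((n : ℝ) + 1)}) := by
    refine measurableSet_ball.inter (MeasurableSet.inter ?_ ?_)
    · exact (isOpen_lt continuous_const hc).measurableSet
    · exact (isClosed_le hc continuous_const).measurableSet
  have hfin : volume (ball (0 : ℂ) R ∩ {w | 0 < infDist w S ∧
      infDist w S ≤ c / ((n : ℝ) + 1)}) ≠ ∞ :=
    ((measure_mono inter_subset_left).trans_lt
        (measure_ball_lt_top (x := (0 : ℂ)) (r := R))).ne
  refine (pot_bound hM hmeas hfin hg1 hg2 hr0 z).trans ?_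
  have h3 := hN n hn
  simp only [Function.comp] at h3
  have h4 : volume.real (ball (0 : ℂ) R ∩ {w | 0 < infDist w S ∧
      infDist w S ≤ c / ((n : ℝ) + 1)}) / r ≤ ε / (2 * (M + 1)) := by
    rw [div_le_iff₀ hr0]
    refine h3.le.trans (le_of_eq ?_)
    ring
  have h5 : 2 * Real.pi * r = ε / (2 * (M + 1)) := by
    rw [hr]
    field_simp
  calc M * (2 * Real.pi * r + _ / r) ≤ M * (ε / (2 * (M + 1)) + ε / (2 * (M + 1))) := by
        refine mul_le_mul_of_nonneg_left ?_ hM
        rw [h5]
        exact add_le_add le_rfl h4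
    _ = ε * (M / (M + 1)) := by
        field_simp
        ring
    _ ≤ ε * 1 := by
        refine mul_le_mul_of_nonneg_left ?_ hε.le
        rw [div_le_one (by positivity)]
        linarith
    _ = ε := mul_one _

/-- potentials of bounded densities that vanish on `X` -/
theorem pot_rx (hX : IsClosed X) {g : ℂ → ℂ} {M R : ℝ} (hg : Measurable g) (hM : ∀ w, ‖g w‖ ≤ M)
    (hR : ∀ w, w ∉ ball (0 : ℂ) R → g w = 0) (h0 : ∀ w ∈ X, g w = 0) : RX X (pot g) := by
  rcases X.eq_empty_or_nonempty with hne | hne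
  · subst hne
    intro ε hε
    exact ⟨0, 1, fun z hz => hz.elim, fun z hz => hz.elim⟩
  have hM0 : 0 ≤ M := (norm_nonneg _).trans (hM 0)
  apply RX.lim
  intro ε hε
  obtain ⟨n, hn⟩ := pot_small hX hne (R := R) (c := 1) hM0 hε
  set T : Set ℂ := {w | infDist w X ≤ 1 / ((n : ℝ) + 1)} with hT
  have hc : Continuous (fun w : ℂ => infDist w X) := continuous_infDist_pt X
  have hTm : MeasurableSet T := (isClosed_le hc continuous_const).measurableSet
  set g1 := T.indicator g with hg1
  set g2 := Tᶜ.indicator g with hg2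
  have hm1 : Measurable g1 := hg.indicator hTm
  have hm2 : Measurable g2 := hg.indicator hTm.compl
  have hb1 : ∀ w, ‖g1 w‖ ≤ M := fun w => (norm_indicator_le_norm_self _ _).trans (hM w)
  have hb2 : ∀ w, ‖g2 w‖ ≤ M := fun w => (norm_indicator_le_norm_self _ _).trans (hM w)
  have hr1 : ∀ w, w ∉ ball (0 : ℂ) R → g1 w = 0 := fun w hw => by simp [hg1, indicator, hR w hw]
  have hr2 : ∀ w, w ∉ ball (0 : ℂ) R → g2 w = 0 := fun w hw => by simp [hg2, indicator, hR w hw]
  refine ⟨pot g2, ?_, fun z hz => ?_⟩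
  · refine pot_rx_far (K := ball (0 : ℂ) R ∩ Tᶜ) (R := R) (M := M) (δ := 1 / ((n : ℝ) + 1))
      (by positivity) inter_subset_left ?_ hm2 hb2 ?_
    · intro w hw z hz
      have h1 : ¬ infDist w X ≤ 1 / ((n : ℝ) + 1) := hw.2
      push Not at h1
      have h2 := infDist_le_dist_of_mem (x := w) hz
      rw [dist_comm, dist_eq_norm] at h2
      linarith
    · intro w hw
      refine ⟨?_, ?_⟩
      · by_contra h
        exact hw (hr2 w h)
      · by_contra h
        exact hw (indicator_of_notMem h _)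
  · have hsum : pot g z = pot g1 z + pot g2 z := by
      rw [← pot_add (pot_int hm1 hb1 hr1 z) (pot_int hm2 hb2 hr2 z)]
      congr 1
      funext w
      exact (congrFun (indicator_self_add_compl T g) w).symm
    rw [hsum, add_sub_cancel_right]
    refine hn n le_rfl g1 (Eventually.of_forall hb1) (Eventually.of_forall fun w hw => ?_) z
    by_contra h
    apply hw
    have hwT : w ∈ T := by
      by_contra h'
      exact h (indicator_of_notMem h' _)
    refine ⟨?_, ?_, hwT⟩
    · by_contra h'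
      exact h (hr1 w h')
    · rcases (infDist_nonneg (x := w) (s := X)).eq_or_lt with h' | h'
      · exfalso
        have hwX : w ∈ X := (hX.mem_iff_infDist_zero hne).2 h'.symm
        apply h
        simp [hg1, indicator, h0 w hwX]
      · exact h'

end Pool.Agent.Q68.RA
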