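import Pool.Agent.Q68.RA.Loc

/-! The portion step and the final theorem. -/

set_option autoImplicit false
open Complex MeasureTheory Filter Topology Metric Set
open scoped NNReal ENNReal

namespace Pool.Agent.Q68.RA

open Pool.Agent.H761R2.SV (dbar)

variable {X : Set ℂ} {f : ℂ → ℂ} {B : ℝ}

lemma dbar_complex {F : ℂ → ℂ} {w c : ℂ}
    (h : fderiv ℝ F w = (ContinuousLinearMap.toSpanSingleton ℂ c : ℂ →L[ℂ] ℂ).restrictScalars ℝ) :
    dbar F w = 0 := by
  unfold dbar
  rw [h]
  simp only [ContinuousLinearMap.coe_restrictScalars', ContinuousLinearMap.toSpanSingleton_apply,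
    smul_eq_mul, one_mul]
  rw [← mul_assoc, I_mul_I]
  ring

lemma lipC_mul_lip {φ F : ℂ → ℂ} {L : ℝ≥0} (h : LipC φ) (hF : LipschitzWith L F) :
    LipC (fun w => φ w * F w) := by
  obtain ⟨b, hb⟩ := h.bdd
  obtain ⟨R, hR⟩ := h.ball
  obtain ⟨⟨K, hK⟩, hcs⟩ := h
  obtain ⟨B0, hB0⟩ := (isCompact_closedBall (0 : ℂ) R).exists_bound_of_continuousOn
    hF.continuous.continuousOn
  have h0 : ∀ w, w ∉ ball (0 : ℂ) R → φ w = 0 := fun w hw =>
    image_eq_zero_of_notMem_tsupport (fun h => hw (hR h))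
  have hB0' : ∀ w, w ∈ ball (0 : ℂ) R → ‖F w‖ ≤ |B0| := fun w hw =>
    (hB0 w (ball_subset_closedBall hw)).trans (le_abs_self _)
  refine ⟨⟨K * |B0|.toNNReal + b * L, ?_⟩, hcs.mul_right⟩
  apply LipschitzWith.of_dist_le_mul
  intro x y
  have h1 := hK.dist_le_mul x y
  have h2 := hF.dist_le_mul x y
  rw [dist_eq_norm] at h1 h2 ⊢
  push_cast
  rw [Real.coe_toNNReal _ (abs_nonneg _)]
  by_cases hy : y ∈ ball (0 : ℂ) R
  · rw [show φ x * F x - φ y * F y = (φ x - φ y) * F y + φ x * (F x - F y) by ring]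
    refine (norm_add_le _ _).trans ?_
    rw [norm_mul, norm_mul]
    have h3 : ‖φ x - φ y‖ * ‖F y‖ ≤ (K * dist x y) * |B0| :=
      mul_le_mul h1 (hB0' y hy) (norm_nonneg _) (by positivity)
    have h4 : ‖φ x‖ * ‖F x - F y‖ ≤ b * (L * dist x y) :=
      mul_le_mul (hb x) h2 (norm_nonneg _) b.2
    nlinarith
  · by_cases hx : x ∈ ball (0 : ℂ) R
    · rw [h0 y hy, zero_mul, sub_zero, norm_mul]
      rw [h0 y hy, sub_zero] at h1
      have h3 : ‖φ x‖ * ‖F x‖ ≤ (K * dist x y) * |B0| :=
        mul_le_mul h1 (hB0' x hx) (norm_nonneg _) (by positivity)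
      have h4 : (0 : ℝ) ≤ b * (L * dist x y) := by positivity
      nlinarith
    · rw [h0 x hx, h0 y hy]
      simp only [zero_mul, sub_zero, norm_zero]
      positivity

/-- the portion step -/
theorem good_portion (hX : IsClosed X) (hfm : Measurable f) (hfB : ∀ w, ‖f w‖ ≤ B)
    (hf0 : ∀ w, w ∉ X → f w = 0)
    (hd : ∀ᵐ a ∂(volume : Measure ℂ), a ∈ X → ∃ c, HasDerivWithinAt f c X a)
    {W : Set ℂ} (hWo : IsOpen W) (hW : Good X f W) (hWX : Wᶜ ⊆ X) (hne : (Wᶜ).Nonempty)
    {O : Set ℂ} (hO : IsOpen O) {k : ℝ≥0}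
    (hk : ∀ a ∈ Wᶜ ∩ O, ∀ z ∈ X, ‖f z - f a‖ ≤ k * ‖z - a‖) : Good X f O := by
  intro φ hφ hφO
  set S := Wᶜ with hS
  have hSc : IsClosed S := hWo.isClosed_compl
  obtain ⟨b, hb⟩ := hφ.bdd
  obtain ⟨R, hR⟩ := hφ.ball
  obtain ⟨Kφ, hKφ⟩ := hφ.1
  -- Lipschitz extension
  have hlipS : LipschitzOnWith k f (S ∩ O) := by
    apply LipschitzOnWith.of_dist_le_mul
    intro x hx y hy
    rw [dist_eq_norm, dist_eq_norm]
    exact hk y hy x (hWX hx.1)
  obtain ⟨F, hF, hFf⟩ := hlipS.extend_finite_dimension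
  set L := lipschitzExtensionConstant ℂ * k with hL
  obtain ⟨B0, hB0⟩ := (isCompact_closedBall (0 : ℂ) R).exists_bound_of_continuousOn
    hF.continuous.continuousOn
  have hpi := Real.pi_pos
  -- nearby points
  obtain ⟨η, hη, hηO⟩ := hφ.2.isCompact.exists_cthickening_subset_open hO hφO
  have hclose : ∀ z ∈ X, z ∈ tsupport φ → infDist z S ≤ η →
      ‖F z - f z‖ ≤ (k + L) * infDist z S := by
    intro z hz hzφ hzη
    obtain ⟨a, haS, ha⟩ := hSc.exists_infDist_eq_dist hne z
    have haO : a ∈ O := by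
      apply hηO
      apply mem_cthickening_of_dist_le a z η (tsupport φ) hzφ
      rw [dist_comm, ← ha]
      exact hzη
    have h1 := hk a ⟨haS, haO⟩ z hz
    have h2 : dist (F z) (F a) ≤ L * dist z a := hF.dist_le_mul z a
    have h3 : f a = F a := hFf ⟨haS, haO⟩
    rw [ha]
    rw [dist_eq_norm] at h2 ⊢
    rw [show F z - f z = (F z - F a) - (f z - f a) by rw [h3]; ring]
    refine (norm_sub_le _ _).trans ?_
    rw [dist_eq_norm] at h2
    linarith
  -- dbar F vanishes almost everywhere on S ∩ O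
  have hFz : ∀ᵐ w ∂(volume : Measure ℂ), w ∈ S ∩ O → dbar F w = 0 := by
    have hm : MeasurableSet (S ∩ O) := hSc.measurableSet.inter hO.measurableSet
    have h1 := (ae_restrict_iff' hm).1 (density_unique hm)
    filter_upwards [h1, hd, hF.ae_differentiableAt] with w h1 h2 h3 hw
    obtain ⟨c, hc⟩ := h2 (hWX hw.1)
    apply dbar_complex (c := c)
    have h4 : HasFDerivWithinAt F (fderiv ℝ F w) (S ∩ O) w := h3.hasFDerivAt.hasFDerivWithinAt
    have h5 : HasFDerivWithinAt f
        ((ContinuousLinearMap.toSpanSingleton ℂ c : ℂ →L[ℂ] ℂ).restrictScalars ℝ) (S ∩ O) w :=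
      (hc.hasFDerivWithinAt.restrictScalars ℝ).mono (inter_subset_left.trans hWX)
    have h6 := h4.sub h5
    have h7 : HasFDerivWithinAt (fun _ : ℂ => (0 : ℂ)) (fderiv ℝ F w -
        (ContinuousLinearMap.toSpanSingleton ℂ c : ℂ →L[ℂ] ℂ).restrictScalars ℝ) (S ∩ O) w := by
      refine h6.congr (fun x hx => ?_) ?_
      · rw [Pi.sub_apply, hFf hx, sub_self]
      · rw [Pi.sub_apply, hFf hw, sub_self]
    exact sub_eq_zero.1 (h1 hw _ h7)
  -- the main estimate
  have hM0 : (0 : ℝ) ≤ (k + L) * (2 * Kφ + 2 * b) + b * L := by positivity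
  apply RX.lim
  intro ε hε
  obtain ⟨N1, hN1⟩ := pot_small (S := S) hSc hne (R := R) (c := 2) hM0
    (ε := Real.pi * (ε / 2)) (by positivity)
  obtain ⟨N2, hN2⟩ := exists_nat_gt (max (2 / η) (2 * (b * (k + L)) * 2 / ε))
  set n := max N1 N2 with hn
  set t : ℝ≥0 := (n : ℝ≥0) + 1 with ht
  have ht' : (t : ℝ) = (n : ℝ) + 1 := by rw [ht]; push_cast; rfl
  have ht1 : (1 : ℝ) ≤ t := by
    rw [ht']
    have : (0 : ℝ) ≤ n := Nat.cast_nonneg n
    linarith
  have ht0 : (0 : ℝ) < t := by linarith
  have htN : max (2 / η) (2 * (b * (k + L)) * 2 / ε) < t := by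
    refine hN2.trans ?_
    rw [ht']
    have : (N2 : ℝ) ≤ n := by exact_mod_cast le_max_right _ _
    linarith
  have hη2 : 2 / (t : ℝ) ≤ η := by
    have h1 := (le_max_left _ _).trans_lt htN
    rw [div_lt_iff₀ hη] at h1
    rw [div_le_iff₀ ht0]
    linarith
  have hε2 : b * ((k + L) * (2 / t)) ≤ ε / 2 := by
    have h1 := (le_max_right _ _).trans_lt htN
    rw [div_lt_iff₀ hε] at h1
    rw [show (b : ℝ) * ((k + L) * (2 / t)) = (b * (k + L) * 2) / t by ring, div_le_iff₀ ht0]
    linarith
  -- the pieces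
  set θ : ℂ → ℂ := fun w => φ w * cut S t w with hθ
  have hθL : LipC θ := hφ.mul (c := 1) cut_lip (fun x => by simpa using cut_norm x)
  have hφ' : LipC (fun w => φ w * (1 - cut S t w)) := by
    refine hφ.mul (L := t) (c := 1) ?_ (fun x => by simpa using cut_norm' x)
    apply LipschitzWith.of_dist_le_mul
    intro x y
    rw [dist_sub_left]
    exact cut_lip.dist_le_mul x y
  have hid : Continuous (fun w : ℂ => infDist w S) := continuous_infDist_pt S
  have hRX' : RX X (T f (fun w => φ w * (1 - cut S t w))) := by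
    refine hW _ hφ' ?_
    have hcl : IsClosed {w | 1 / (t : ℝ) ≤ infDist w S} := isClosed_le continuous_const hid
    have h3 : tsupport (fun w => φ w * (1 - cut S t w)) ⊆ {w | 1 / (t : ℝ) ≤ infDist w S} := by
      refine closure_minimal (fun w hw => ?_) hcl
      by_contra h
      simp only [mem_ofPred_eq, not_le] at h
      apply hw
      have : cut S t w = 1 := by
        apply cut_one
        rw [lt_div_iff₀ ht0] at h
        linarith
      simp [this]
    intro w hw
    by_contra hwW
    have hwS : w ∈ S := hwW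
    have h5 : 1 / (t : ℝ) ≤ infDist w S := h3 hw
    rw [infDist_zero_of_mem hwS] at h5
    have : (0 : ℝ) < 1 / t := by positivity
    linarith
  have hθlip : LipschitzWith (Kφ * 1 + b * t) θ :=
    lip_mul hKφ cut_lip hb (fun x => by simpa using cut_norm x)
  have hθsupp : tsupport θ ⊆ tsupport φ := tsupport_mul_subset_left
  have hθS : tsupport θ ⊆ {w | infDist w S ≤ 2 / (t : ℝ)} := by
    refine closure_minimal (fun w hw => ?_) (isClosed_le hid continuous_const)
    by_contra h
    simp only [mem_ofPred_eq, not_le] at h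
    apply hw
    have : cut S t w = 0 := by
      apply cut_zero
      rw [div_lt_iff₀ ht0] at h
      linarith
    simp [hθ, this]
  have hθb : ∀ w, ‖θ w‖ ≤ b := by
    intro w
    rw [hθ]
    simp only
    rw [norm_mul]
    calc ‖φ w‖ * ‖cut S t w‖ ≤ b * 1 := mul_le_mul (hb w) (cut_norm w) (norm_nonneg _) b.2
      _ = b := mul_one _
  have hθ0 : ∀ w, w ∉ ball (0 : ℂ) R → θ w = 0 := fun w hw =>
    image_eq_zero_of_notMem_tsupport (fun h => hw (hR (hθsupp h)))
  have hdθ0 : ∀ w, w ∉ ball (0 : ℂ) R → dbar θ w = 0 := fun w hw =>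
    dbar_zero (fun h => hw (hR (hθsupp h)))
  have hdθb : ∀ w, ‖dbar θ w‖ ≤ Kφ + b * t := by
    intro w
    have := dbar_bd hθlip w
    push_cast at this
    linarith
  -- densities
  set G : ℂ → ℂ := fun w => dbar θ w * F w + θ w * dbar F w with hG
  have hGm : Measurable G := by
    have h1 := dbar_meas θ
    have h2 := dbar_meas F
    have h3 := hF.continuous.measurable
    obtain ⟨⟨K, hK⟩, _⟩ := hθL
    have h4 := hK.continuous.measurable
    rw [hG]
    fun_prop
  have hG0 : ∀ w, w ∉ ball (0 : ℂ) R → G w = 0 := by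
    intro w hw
    rw [hG]
    simp only
    rw [hθ0 w hw, hdθ0 w hw]
    ring
  have hB0' : ∀ w, w ∈ ball (0 : ℂ) R → ‖F w‖ ≤ B0 := fun w hw => hB0 w (ball_subset_closedBall hw)
  have hGb : ∀ w, ‖G w‖ ≤ (Kφ + b * t) * |B0| + b * L := by
    intro w
    by_cases hw : w ∈ ball (0 : ℂ) R
    · refine (norm_add_le _ _).trans ?_
      rw [norm_mul, norm_mul]
      refine add_le_add (mul_le_mul (hdθb w) ((hB0' w hw).trans (le_abs_self _)) (norm_nonneg _)
        (by positivity)) ?_
      exact mul_le_mul (hθb w) (dbar_bd hF w) (norm_nonneg _) b.2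
    · rw [hG0 w hw, norm_zero]
      positivity
  set G1 : ℂ → ℂ := Xᶜ.indicator G with hG1
  set G2 : ℂ → ℂ := fun w => X.indicator G w - f w * dbar θ w with hG2
  have hG1m : Measurable G1 := hGm.indicator hX.measurableSet.compl
  have hG1RX : RX X (pot G1) := by
    refine pot_rx hX hG1m (M := (Kφ + b * t) * |B0| + b * L) (R := R) (fun w => ?_)
      (fun w hw => ?_) (fun w hw => ?_)
    · exact (norm_indicator_le_norm_self _ _).trans (hGb w)
    · simp [hG1, indicator, hG0 w hw]
    · rw [hG1, indicator_of_notMem]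
      simpa using hw
  -- Pompeiu for θ F
  have hfdm : Measurable (fun w => f w * dbar θ w) := hfm.mul (dbar_meas θ)
  have hB : 0 ≤ B := (norm_nonneg _).trans (hfB 0)
  have hfdi := fd_int hfm hfB hθL
  have hXG : ∀ z, Integrable (fun w => X.indicator G w * (z - w)⁻¹) := by
    intro z
    refine pot_int (g := X.indicator G) (M := (Kφ + b * t) * |B0| + b * L) (R := R)
      (hGm.indicator hX.measurableSet) (fun w => ?_) (fun w hw => ?_) z
    · exact (norm_indicator_le_norm_self _ _).trans (hGb w)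
    · simp [indicator, hG0 w hw]
  have hG1i : ∀ z, Integrable (fun w => G1 w * (z - w)⁻¹) := by
    intro z
    refine pot_int (g := G1) (M := (Kφ + b * t) * |B0| + b * L) (R := R)
      hG1m (fun w => ?_) (fun w hw => ?_) z
    · exact (norm_indicator_le_norm_self _ _).trans (hGb w)
    · simp [hG1, indicator, hG0 w hw]
  have hkey : ∀ z, T f θ z = θ z * (f z - F z) + (Real.pi : ℂ)⁻¹ * pot G1 z +
      (Real.pi : ℂ)⁻¹ * pot G2 z := by
    intro z
    have hπ : (Real.pi : ℂ) ≠ 0 := by exact_mod_cast hpi.ne'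
    have hθF := lipC_mul_lip hθL hF
    obtain ⟨⟨K', hK'⟩, hθFc⟩ := hθF
    obtain ⟨⟨K'', hK''⟩, _⟩ := hθL
    have h1 := lip_pompeiu hK' hθFc z
    have h2 : pot (dbar (fun w => θ w * F w)) z = pot G z := by
      apply pot_congr
      filter_upwards [hK''.ae_differentiableAt, hF.ae_differentiableAt] with w h1 h2
      rw [dbar_mul_at h1 h2]
    have h3 : pot (dbar (fun w => θ w * F w)) z = Real.pi * (θ z * F z) := h1
    have h4 : pot G z = pot G1 z + pot (X.indicator G) z := by
      rw [← pot_add (hG1i z) (hXG z)]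
      congr 1
      funext w
      rw [hG1, add_comm]
      exact (congrFun (indicator_self_add_compl X G) w).symm
    have h5 : pot G2 z = pot (X.indicator G) z - pot (fun w => f w * dbar θ w) z := by
      unfold pot
      rw [← integral_sub (hXG z) (hfdi z)]
      congr 1
      funext w
      rw [hG2]
      ring
    unfold T
    rw [h5]
    have h6 : θ z * F z = (Real.pi : ℂ)⁻¹ * (pot G1 z + pot (X.indicator G) z) := by
      rw [← h4, ← h2, h3]
      field_simp
    rw [mul_sub, h6]
    ring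
  have hG2b : ∀ᵐ w ∂(volume : Measure ℂ), ‖G2 w‖ ≤ (k + L) * (2 * Kφ + 2 * b) + b * L := by
    refine Eventually.of_forall fun w => ?_
    by_cases hwX : w ∈ X
    · by_cases hwθ : w ∈ tsupport θ
      · have h1 : infDist w S ≤ 2 / (t : ℝ) := hθS hwθ
        have h2 := hclose w hwX (hθsupp hwθ) (h1.trans hη2)
        have h3 : G2 w = dbar θ w * (F w - f w) + θ w * dbar F w := by
          rw [hG2, hG]
          simp only [indicator_of_mem hwX]
          ring
        rw [h3]
        refine (norm_add_le _ _).trans ?_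
        rw [norm_mul, norm_mul]
        have h4 : ‖F w - f w‖ ≤ (k + L) * (2 / t) :=
          h2.trans (mul_le_mul_of_nonneg_left h1 (by positivity))
        have h5 : ‖dbar θ w‖ * ‖F w - f w‖ ≤ (Kφ + b * t) * ((k + L) * (2 / t)) :=
          mul_le_mul (hdθb w) h4 (norm_nonneg _) (by positivity)
        have h6 : (Kφ + b * t) * ((k + L) * (2 / t)) ≤ ((k : ℝ) + L) * (2 * Kφ + 2 * b) := by
          rw [show ((Kφ : ℝ) + b * t) * ((k + L) * (2 / t)) =
            (k + L) * (2 * (Kφ / t) + 2 * b) by field_simp]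
          refine mul_le_mul_of_nonneg_left ?_ (by positivity)
          have : (Kφ : ℝ) / t ≤ Kφ := div_le_self Kφ.2 ht1
          linarith
        have h7 : ‖θ w‖ * ‖dbar F w‖ ≤ b * L := mul_le_mul (hθb w) (dbar_bd hF w) (norm_nonneg _) b.2
        linarith
      · have h3 : G2 w = 0 := by
          rw [hG2, hG]
          simp only [indicator_of_mem hwX]
          rw [dbar_zero hwθ, image_eq_zero_of_notMem_tsupport hwθ]
          ring
        rw [h3, norm_zero]
        exact hM0
    · have h3 : G2 w = 0 := by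
        rw [hG2]
        simp only [indicator_of_notMem hwX, hf0 w hwX]
        ring
      rw [h3, norm_zero]
      exact hM0
  have hG2z : ∀ᵐ w ∂(volume : Measure ℂ), w ∉ (ball (0 : ℂ) R ∩ {w | 0 < infDist w S ∧
      infDist w S ≤ 2 / ((n : ℝ) + 1)}) → G2 w = 0 := by
    filter_upwards [hFz] with w hw hwE
    by_cases hwX : w ∈ X
    · by_cases hwθ : w ∈ tsupport θ
      · have h1 : infDist w S ≤ 2 / (t : ℝ) := hθS hwθ
        have h2 : w ∈ S := by
          rw [hSc.mem_iff_infDist_zero hne]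
          by_contra h
          apply hwE
          refine ⟨hR (hθsupp hwθ), lt_of_le_of_ne infDist_nonneg (Ne.symm h), ?_⟩
          rwa [ht'] at h1
        have h3 : w ∈ S ∩ O := ⟨h2, hφO (hθsupp hwθ)⟩
        rw [hG2, hG]
        simp only [indicator_of_mem hwX]
        rw [hw h3, hFf h3]
        ring
      · rw [hG2, hG]
        simp only [indicator_of_mem hwX]
        rw [dbar_zero hwθ, image_eq_zero_of_notMem_tsupport hwθ]
        ring
    · rw [hG2]
      simp only [indicator_of_notMem hwX, hf0 w hwX]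
      ring
  have hsmall := hN1 n (le_max_left _ _) G2 hG2b hG2z
  refine ⟨fun z => T f (fun w => φ w * (1 - cut S t w)) z + (Real.pi : ℂ)⁻¹ * pot G1 z,
    hRX'.add (hG1RX.const_mul _), fun z hz => ?_⟩
  have hsum : T f φ z = T f (fun w => φ w * (1 - cut S t w)) z + T f θ z := by
    rw [← T_add hfm hfB hφ' hθL]
    congr 1
    funext w
    simp only [hθ]
    ring
  rw [hsum, hkey z]
  rw [show T f (fun w => φ w * (1 - cut S t w)) z + (θ z * (f z - F z) + (Real.pi : ℂ)⁻¹ * pot G1 z +
      (Real.pi : ℂ)⁻¹ * pot G2 z) - (T f (fun w => φ w * (1 - cut S t w)) z +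
      (Real.pi : ℂ)⁻¹ * pot G1 z) = θ z * (f z - F z) + (Real.pi : ℂ)⁻¹ * pot G2 z by ring]
  refine (norm_add_le _ _).trans ?_
  have h1 : ‖θ z * (f z - F z)‖ ≤ ε / 2 := by
    by_cases hzθ : z ∈ tsupport θ
    · have h1 : infDist z S ≤ 2 / (t : ℝ) := hθS hzθ
      have h2 := hclose z hz (hθsupp hzθ) (h1.trans hη2)
      rw [norm_mul, norm_sub_rev]
      refine le_trans ?_ hε2
      refine mul_le_mul (hθb z) (h2.trans ?_) (norm_nonneg _) b.2
      exact mul_le_mul_of_nonneg_left h1 (by positivity)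
    · rw [image_eq_zero_of_notMem_tsupport hzθ, zero_mul, norm_zero]
      positivity
  have h2 : ‖(Real.pi : ℂ)⁻¹ * pot G2 z‖ ≤ ε / 2 := by
    rw [norm_mul, norm_inv, norm_real, Real.norm_of_nonneg hpi.le, inv_mul_le_iff₀ hpi]
    exact hsmall z
  linarith

/-- **Theorem.** A function on a compact set `X` that is pointwise Lipschitz at every point of `X`
and complex differentiable (along `X`) at almost every point of `X` belongs to `R(X)`. -/
theorem main_rx (hX : IsCompact X) {f : ℂ → ℂ}
    (hlip : ∀ a ∈ X, ∃ k : ℝ, ∀ z ∈ X, ‖f z - f a‖ ≤ k * ‖z - a‖)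
    (hd : ∀ᵐ a ∂(volume : Measure ℂ), a ∈ X → ∃ c, HasDerivWithinAt f c X a) : RX X f := by
  have hXc := hX.isClosed
  have hfc : ContinuousOn f X := by
    intro a ha
    obtain ⟨k, hk⟩ := hlip a ha
    rw [ContinuousWithinAt, tendsto_iff_norm_sub_tendsto_zero]
    have h1 : Tendsto (fun z => k * ‖z - a‖) (𝓝[X] a) (𝓝 0) := by
      have : Tendsto (fun z => k * ‖z - a‖) (𝓝 a) (𝓝 (k * ‖a - a‖)) := by
        apply Continuous.tendsto
        fun_prop
      rw [sub_self, norm_zero, mul_zero] at this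
      exact this.mono_left nhdsWithin_le_nhds
    refine tendsto_of_tendsto_of_tendsto_of_le_of_le' tendsto_const_nhds h1
      (Eventually.of_forall fun z => norm_nonneg _) ?_
    filter_upwards [self_mem_nhdsWithin] with z hz
    exact hk z hz
  obtain ⟨B, hB⟩ := hX.exists_bound_of_continuousOn hfc
  set g : ℂ → ℂ := X.indicator f with hg
  have hgf : ∀ z ∈ X, g z = f z := fun z hz => indicator_of_mem hz f
  have hgm : Measurable g := by
    classical
    rw [hg, ← piecewise_eq_indicator]
    exact hfc.measurable_piecewise continuousOn_const hXc.measurableSet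
  have hgB : ∀ w, ‖g w‖ ≤ |B| := by
    intro w
    by_cases hw : w ∈ X
    · rw [hgf w hw]
      exact (hB w hw).trans (le_abs_self _)
    · rw [hg, indicator_of_notMem hw, norm_zero]
      exact abs_nonneg _
  have hg0 : ∀ w, w ∉ X → g w = 0 := fun w hw => indicator_of_notMem hw _
  have hgd : ∀ᵐ a ∂(volume : Measure ℂ), a ∈ X → ∃ c, HasDerivWithinAt g c X a := by
    filter_upwards [hd] with a ha haX
    obtain ⟨c, hc⟩ := ha haX
    exact ⟨c, hc.congr hgf (hgf a haX)⟩
  -- the largest good open set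
  set 𝒰 : Set (Set ℂ) := {U | IsOpen U ∧ Good X g U} with h𝒰
  set W := ⋃₀ 𝒰 with hW
  have hWo : IsOpen W := isOpen_sUnion fun U hU => hU.1
  have hWg : Good X g W := good_sUnion hgm hgB fun U hU => hU
  have hXW : Xᶜ ⊆ W := by
    refine subset_sUnion_of_mem ⟨hXc.isOpen_compl, ?_⟩
    intro φ hφ hs
    refine (RX.zero X).congr fun z hz => ?_
    unfold T
    rw [image_eq_zero_of_notMem_tsupport (fun h => hs h hz)]
    have : (fun w => g w * dbar φ w) = fun _ => 0 := by
      funext w
      by_cases hw : w ∈ X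
      · rw [dbar_zero (fun h => hs h hw), mul_zero]
      · rw [hg0 w hw, zero_mul]
    rw [this]
    simp [pot]
  have hWX : Wᶜ ⊆ X := by
    intro w hw
    by_contra h
    exact hw (hXW h)
  -- Baire
  have hWu : W = univ := by
    by_contra hne'
    have hne : (Wᶜ).Nonempty := by
      rw [nonempty_compl]
      exact hne'
    have hSc : IsClosed Wᶜ := hWo.isClosed_compl
    have : CompleteSpace (Wᶜ : Set ℂ) := hSc.completeSpace_coe
    have : Nonempty (Wᶜ : Set ℂ) := hne.to_subtype
    set E : ℕ → Set (Wᶜ : Set ℂ) := fun k => {a | ∀ z ∈ X, ‖f z - f a‖ ≤ k * ‖z - a‖} with hE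
    have hEc : ∀ k, IsClosed (E k) := by
      intro k
      rw [hE]
      simp only [ofPred_forall]
      refine isClosed_iInter fun z => isClosed_iInter fun hz => ?_
      have h1 : Continuous (fun a : (Wᶜ : Set ℂ) => f a) := by
        have := hfc.mono hWX
        exact continuousOn_iff_continuous_domRestrict.1 this
      apply isClosed_le
      · exact (continuous_const.sub h1).norm
      · exact continuous_const.mul (continuous_const.sub continuous_subtype_val).norm
    have hEu : ⋃ k, E k = univ := by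
      rw [eq_univ_iff_forall]
      intro a
      obtain ⟨k, hk⟩ := hlip a (hWX a.2)
      obtain ⟨n, hn⟩ := exists_nat_ge k
      rw [mem_iUnion]
      exact ⟨n, fun z hz => (hk z hz).trans (mul_le_mul_of_nonneg_right hn (norm_nonneg _))⟩
    obtain ⟨k, a, ha⟩ := nonempty_interior_of_iUnion_of_closed hEc hEu
    rw [mem_interior] at ha
    obtain ⟨V, hVE, hVo, haV⟩ := ha
    obtain ⟨O, hO, rfl⟩ := isOpen_induced_iff.1 hVo
    have hgood : Good X g O := by
      refine good_portion (B := |B|) hXc hgm hgB hg0 hgd hWo hWg hWX hne hO (k := k) ?_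
      intro b hb z hz
      have := hVE (a := ⟨b, hb.1⟩) hb.2 z hz
      rw [hgf z hz, hgf b (hWX hb.1)]
      simpa using this
    have : (a : ℂ) ∈ W := mem_sUnion_of_mem haV ⟨hO, hgood⟩
    exact a.2 this
  -- the conclusion
  obtain ⟨R, hR⟩ := hX.isBounded.subset_ball (0 : ℂ)
  set R' : ℝ := max R 1 with hR'
  have hR'0 : 0 < R' := lt_of_lt_of_le one_pos (le_max_right _ _)
  set φ : ℂ → ℂ := cut (closedBall (0 : ℂ) R') 1 with hφ
  have hne : (closedBall (0 : ℂ) R').Nonempty := ⟨0, by simp [hR'0.le]⟩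
  have hφL : LipC φ := by
    refine ⟨⟨1, cut_lip⟩, ?_⟩
    apply HasCompactSupport.of_support_subset_isCompact (isCompact_closedBall (0 : ℂ) (R' + 2))
    intro w hw
    by_contra hn
    apply hw
    simp only [mem_closedBall, dist_zero_right, not_le] at hn
    apply cut_zero
    rw [NNReal.coe_one, one_mul]
    rw [le_infDist hne]
    intro y hy
    rw [mem_closedBall_zero_iff] at hy
    rw [dist_eq_norm]
    have := norm_sub_norm_le w y
    linarith
  have h1 := hWg φ hφL (by rw [hWu]; exact subset_univ _)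
  have h2 : ∀ w ∈ X, φ =ᶠ[𝓝 w] fun _ => 1 := by
    intro w hw
    have h3 : ball (0 : ℂ) R' ∈ 𝓝 w := isOpen_ball.mem_nhds
      (ball_subset_ball (le_max_left _ _) (hR hw))
    filter_upwards [h3] with v hv
    apply cut_one
    rw [infDist_zero_of_mem (ball_subset_closedBall hv)]
    simp
  refine h1.congr fun z hz => ?_
  unfold T
  have h3 : (fun w => g w * dbar φ w) = fun _ => 0 := by
    funext w
    by_cases hw : w ∈ X
    · have : dbar φ w = 0 := by
        unfold dbar
        rw [(h2 w hw).fderiv_eq]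
        simp
      rw [this, mul_zero]
    · rw [hg0 w hw, zero_mul]
  rw [h3, (h2 z hz).eq_of_nhds, hgf z hz]
  simp [pot]

end Pool.Agent.Q68.RA
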